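import Pool.Agent.Lib.H67P.Defs

/-!
# H67P chunk A1 (S): the classes `PP j` are closed under sections and saturated
-/

namespace Pool.Agent.Lib.H67P

open Pool.Agent.Lib.Helper67.BA TA

variable {X : Type}

/-- `sec`: `sec_mem_Dep` (BA/Norm). `up`: `X` is finite, take the maximum `k` of the depths of the sections at the letters,
then `g ∈ Dep X (k+1)`: a word of length `k+1` is `x :: u`, `sec g (x :: u) = sec (sec g [x]) u` (`sec_append`). -/
theorem sat_Fin0 [Finite X] : Sat (Fin0 X) := by
  constructor
  · rintro g ⟨k, hk⟩ w
    exact ⟨k, sec_mem_Dep hk w⟩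
  · intro g hg
    choose K hK using hg
    obtain ⟨M, hM⟩ := (Set.finite_range K).bddAbove
    refine ⟨M + 1, ?_⟩
    rw [mem_Dep]
    intro v hv
    obtain ⟨x, u, rfl⟩ := List.exists_cons_of_length_eq_add_one hv
    have h1 : x :: u = [x] ++ u := rfl
    rw [h1, sec_append]
    apply Dep_sec (hK x)
    have h2 := hM ⟨x, rfl⟩
    rw [List.length_cons] at hv
    omega

/-- `sec`: `QQ.sec`, and `w ↦ u ++ w` injects the bad words of length `n` of `sec g u` into the bad words of length
`|u| + n` of `g` (finite sets by `finite_words`). `up`: bad words of length `0`: at most one; of length `n+1`: `x :: w`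
with `w` bad for `sec g [x]`, so at most `∑ x, C x`. `QQ g`: the sections off `ξ` are `sec g [x]` (finitely many), or
`k = k'+1` and `pref ξ (k'+1) = ξ 0 :: pref (shift 1 ξ) k'` (`pref_succ`, BA/Swap), a section of `sec g [ξ 0]` off `shift 1 ξ`. -/
theorem sat_stepS [Finite X] {H : Subgroup (TA X)} (_hH : Sat H) : Sat (stepS H) := by
  constructor
  · rintro g ⟨hg, C, hC⟩ u
    refine ⟨hg.sec u, C, fun n => ?_⟩
    refine le_trans ?_ (hC (u.length + n))
    refine Set.ncard_le_ncard_of_injOn (fun v => u ++ v) ?_ ?_
      ((finite_words _).subset fun v hv => hv.1)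
    · rintro v ⟨h1, h2⟩
      refine ⟨by rw [List.length_append, h1], ?_⟩
      rw [sec_append]
      exact h2
    · intro v _ w _ h
      exact List.append_cancel_left h
  · intro g hg
    have hQ : ∀ x, QQ (sec g [x]) := fun x => (hg x).1
    have hC : ∀ x, ∃ C : ℕ, ∀ n,
        {w : List X | w.length = n ∧ sec (sec g [x]) w ∉ H}.ncard ≤ C := fun x => (hg x).2
    choose C hC using hC
    have := Fintype.ofFinite X
    refine ⟨?_, 1 + ∑ x, C x, fun n => ?_⟩
    · intro ξ
      apply ((Set.finite_range fun x => sec g [x]).union (hQ (ξ 0) (shift 1 ξ))).subset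
      rintro h ⟨k, x, hx, rfl⟩
      cases k with
      | zero => exact Or.inl ⟨x, rfl⟩
      | succ k =>
        right
        refine ⟨k, x, ?_, ?_⟩
        · have h2 : shift 1 ξ k = ξ (k + 1) := by
            show ξ (1 + k) = ξ (k + 1)
            rw [add_comm]
          rw [h2]
          exact hx
        · have h1 : pref ξ (k + 1) = [ξ 0] ++ pref (shift 1 ξ) k := by
            rw [add_comm, pref_add]
            rfl
          rw [h1, List.append_assoc, sec_append g [ξ 0]]
    · cases n with
      | zero =>
        have h1 : {w : List X | w.length = 0 ∧ sec g w ∉ H} ⊆ {[]} := by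
          rintro w ⟨hw, -⟩
          exact List.length_eq_zero_iff.1 hw
        have h2 := Set.ncard_le_ncard h1 (Set.finite_singleton _)
        rw [Set.ncard_singleton] at h2
        omega
      | succ n =>
        have h1 : {w : List X | w.length = n + 1 ∧ sec g w ∉ H} ⊆
            ⋃ x : X, (fun w => x :: w) '' {w : List X | w.length = n ∧
              sec (sec g [x]) w ∉ H} := by
          rintro w ⟨hw, hw2⟩
          obtain ⟨x, u, rfl⟩ := List.exists_cons_of_length_eq_add_one hw
          rw [Set.mem_iUnion]
          refine ⟨x, u, ⟨by rw [List.length_cons] at hw; omega, ?_⟩, rfl⟩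
          rw [← sec_append]
          exact hw2
        have hfin : ∀ x : X, ((fun w => x :: w) '' {w : List X | w.length = n ∧
              sec (sec g [x]) w ∉ H}).Finite := fun x =>
          ((finite_words n).subset fun v hv => hv.1).image _
        calc _ ≤ _ := Set.ncard_le_ncard h1 (Set.finite_iUnion hfin)
          _ ≤ ∑ x : X, ((fun w => x :: w) '' {w : List X | w.length = n ∧
              sec (sec g [x]) w ∉ H}).ncard := Set.ncard_iUnion_le_of_fintype _
          _ ≤ ∑ x : X, C x := by
              apply Finset.sum_le_sum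
              intro x _
              exact (Set.ncard_image_le ((finite_words n).subset fun v hv => hv.1)).trans (hC x n)
          _ ≤ 1 + ∑ x, C x := Nat.le_add_left _ _

theorem sat_PP [Finite X] (j : ℕ) : Sat (PP X j) := by
  induction j with
  | zero => exact sat_Fin0
  | succ j ih => exact sat_stepS ih

/-- no bad words at all, since `H` is closed under sections -/
theorem le_stepS [Finite X] {H : Subgroup (TA X)} (hH : Sat H) (hQ : ∀ g ∈ H, QQ g) :
    H ≤ stepS H := by
  intro g hg
  refine ⟨hQ g hg, 0, fun n => ?_⟩
  have h1 : {w : List X | w.length = n ∧ sec g w ∉ H} = ∅ := by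
    ext w
    simp only [Set.mem_ofPred_eq, Set.mem_empty_iff_false, iff_false, not_and, not_not]
    exact fun _ => hH.sec g hg w
  rw [h1, Set.ncard_empty]

/-- `j = 0`: `g ∈ Dep X k`; sections at words of length `≥ k` are trivial, there are only finitely many shorter words. `j + 1`: by
definition. -/
theorem PP_QQ [Finite X] (j : ℕ) : ∀ g ∈ PP X j, QQ g := by
  intro g hg
  cases j with
  | zero =>
    obtain ⟨k, hk⟩ := hg
    intro ξ
    apply ((Set.finite_singleton (1 : TA X)).union
      ((List.finite_length_le X k).image fun w => sec g w)).subset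
    rintro h ⟨l, x, hx, rfl⟩
    by_cases hl : (pref ξ l ++ [x]).length ≤ k
    · exact Or.inr ⟨_, hl, rfl⟩
    · left
      exact Dep_sec hk (by omega)
  | succ j => exact hg.1

theorem PP_mono [Finite X] {i j : ℕ} (h : i ≤ j) : PP X i ≤ PP X j := by
  induction h with
  | refl => exact le_refl _
  | step _ ih => exact ih.trans (le_stepS (sat_PP _) (PP_QQ _))

end Pool.Agent.Lib.H67P
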