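import Pool.Agent.Lib.H67P.A1

/-!
# H67P chunk A2 (M): below a deep level the bad sections follow a single ray
-/

namespace Pool.Agent.Lib.H67P

open Pool.Agent.Lib.Helper67.BA TA

variable {X : Type}

theorem A2_of_append {H : Subgroup (TA X)} (hH : Sat H) {g : TA X} {v w : List X}
    (h : sec g (v ++ w) ∉ H) : sec g v ∉ H := by
  intro h1
  apply h
  rw [sec_append]
  exact hH.sec _ h1 w

theorem A2_ext {H : Subgroup (TA X)} (hH : Sat H) {g : TA X} {v : List X} (h : sec g v ∉ H)
    (k : ℕ) : ∃ w : List X, w.length = k ∧ sec g (v ++ w) ∉ H := by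
  induction k with
  | zero => exact ⟨[], rfl, by rwa [List.append_nil]⟩
  | succ k ih =>
    obtain ⟨w, hw, hw2⟩ := ih
    have h1 : ∃ x, sec (sec g (v ++ w)) [x] ∉ H := by
      by_contra hcon
      push Not at hcon
      exact hw2 (hH.up _ hcon)
    obtain ⟨x, hx⟩ := h1
    refine ⟨w ++ [x], by rw [List.length_append, hw]; rfl, ?_⟩
    rw [← List.append_assoc, sec_append]
    exact hx

/-- Copy of `norm_aux` (BA/Norm.lean), with `NF g v` replaced by `sec g v ∉ H`: bad words are closed under prefixes (`hH.sec`),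
every bad word has a bad child (`hH.up` and `sec_append`), hence bad extensions of every length; the numbers of bad words
of length `n` are bounded and monotone, so eventually constant and every bad word has exactly one bad extension of
every length. -/
theorem bad_ray [Finite X] {H : Subgroup (TA X)} (hH : Sat H) {g : TA X} (hg : g ∈ stepS H) :
    ∃ n₀ : ℕ, ∀ v : List X, n₀ ≤ v.length → sec g v ∉ H →
      ∃ ξ : ℕ → X, ∀ w : List X, sec g (v ++ w) ∉ H ↔ w = pref ξ w.length := by
  classical
  obtain ⟨-, C, hC⟩ := hg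
  set A : ℕ → Set (List X) := fun n => {v | v.length = n ∧ sec g v ∉ H} with hA
  have hfin : ∀ n, (A n).Finite := fun n => (finite_words n).subset fun v hv => hv.1
  have hle : ∀ n, (A n).ncard ≤ C := hC
  have hsub : ∀ n k, A n ⊆ (List.take n) '' (A (n + k)) := by
    rintro n k v ⟨h1, h2⟩
    obtain ⟨w, hw, hw2⟩ := A2_ext hH h2 k
    refine ⟨v ++ w, ⟨by rw [List.length_append]; omega, hw2⟩, ?_⟩
    rw [← h1, List.take_left]
  have hmono : ∀ n k, (A n).ncard ≤ (List.take n '' (A (n + k))).ncard := fun n k =>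
    Set.ncard_le_ncard (hsub n k) ((hfin _).image _)
  have himg : ∀ n k, (List.take n '' (A (n + k))).ncard ≤ (A (n + k)).ncard := fun n k =>
    Set.ncard_image_le (hfin _)
  obtain ⟨n₀, hn₀⟩ : ∃ n₀, ∀ n, (A n).ncard ≤ (A n₀).ncard := by
    have h1 : (Set.range fun n => (A n).ncard).Nonempty := ⟨_, 0, rfl⟩
    have h2 : BddAbove (Set.range fun n => (A n).ncard) := ⟨C, by rintro _ ⟨n, rfl⟩; exact hle n⟩
    obtain ⟨n₀, hn₀⟩ := Nat.sSup_mem h1 h2
    refine ⟨n₀, fun n => ?_⟩
    have h3 : (A n).ncard ≤ sSup (Set.range fun n => (A n).ncard) := le_csSup h2 ⟨n, rfl⟩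
    have h4 : (A n₀).ncard = sSup (Set.range fun n => (A n).ncard) := hn₀
    omega
  -- uniqueness
  have huniq : ∀ n, n₀ ≤ n → ∀ v w w' : List X, v.length = n → w.length = w'.length →
      sec g (v ++ w) ∉ H → sec g (v ++ w') ∉ H → w = w' := by
    intro n hn v w w' hv hw h1 h2
    have h3 : (A n₀).ncard ≤ (A n).ncard := by
      have h4 := (hmono n₀ (n - n₀)).trans (himg n₀ (n - n₀))
      rwa [Nat.add_sub_cancel' hn] at h4
    have h5 : ((List.take n) '' (A (n + w.length))).ncard = (A (n + w.length)).ncard := by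
      apply le_antisymm (himg _ _)
      exact ((hn₀ _).trans h3).trans (hmono _ _)
    have h6 := Set.injOn_of_ncard_image_eq h5 (hfin _)
    have h7 : v ++ w = v ++ w' := by
      apply h6
      · exact ⟨by rw [List.length_append, hv], h1⟩
      · exact ⟨by rw [List.length_append, hv, hw], h2⟩
      · show List.take n (v ++ w) = List.take n (v ++ w')
        rw [← hv, List.take_left, List.take_left]
    exact List.append_cancel_left h7
  refine ⟨n₀, fun v hm1 hnf => ?_⟩
  choose W hW1 hW2 using fun k => A2_ext hH hnf k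
  let ξ : ℕ → X := fun i => (W (i + 1))[i]'(by rw [hW1]; omega)
  have hξ : ∀ k, pref ξ k = W k := by
    intro k
    apply List.ext_getElem
    · rw [length_pref, hW1]
    · intro i h1 h2
      rw [length_pref] at h1
      rw [pref_get _ _ _ h1]
      have h3 : W (i + 1) = (W k).take (i + 1) := by
        apply huniq _ hm1 v _ _ rfl _ (hW2 _)
        · apply A2_of_append hH (w := (W k).drop (i + 1))
          rw [List.append_assoc, List.take_append_drop]
          exact hW2 k
        · rw [List.length_take, hW1, hW1]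
          omega
      have h4 : (W (i + 1))[i]'(by rw [hW1]; omega) =
          ((W k).take (i + 1))[i]'(by rw [List.length_take, hW1]; omega) := by
        congr 1
      show (W (i + 1))[i]'(by rw [hW1]; omega) = (W k)[i]
      rw [h4, List.getElem_take]
  refine ⟨ξ, fun w => ⟨fun h => ?_, fun h => ?_⟩⟩
  · rw [hξ]
    exact huniq _ hm1 v _ _ rfl (hW1 _).symm h (hW2 _)
  · rw [h, hξ]
    exact hW2 _

end Pool.Agent.Lib.H67P
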