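import Pool.Agent.Lib.H67P.A2

/-!
# H67P chunk A3 (M): consequences for rays
-/

namespace Pool.Agent.Lib.H67P

open Pool.Agent.Lib.Helper67.BA TA

variable {X : Type}

theorem A3_get (ξ : ℕ → X) {n i : ℕ} (h : i < n) : (pref ξ n)[i]? = some (ξ i) := by
  rw [List.getElem?_eq_getElem (by rw [length_pref]; exact h), pref_get _ _ _ h]

theorem A3_snoc (ξ : ℕ → X) (n : ℕ) : pref ξ (n + 1) = pref ξ n ++ [ξ n] := by
  rw [pref_add]
  rfl

theorem A3_split (ζ : ℕ → X) {n k : ℕ} (h : n ≤ k) :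
    pref ζ k = pref ζ n ++ pref (shift n ζ) (k - n) := by
  rw [← pref_add, Nat.add_sub_cancel' h]

/-- Let `n₀` be from `bad_ray`. If `sec g (pref ζ n₀) ∈ H` all longer words are good (`hH.sec`). Otherwise there is `ξ` with
`sec g (pref ζ n₀ ++ w) ∉ H ↔ w = pref ξ |w|`. If `ξ = shift n₀ ζ` take `n₁ = n₀` (the word `pref (shift n₀ ζ) i ++ [x]` is not
a prefix of `ξ` for `x ≠ ζ (n₀ + i)`). If `ξ ≠ shift n₀ ζ`, they differ at some place `i`; take `n₁ = n₀ + i + 1`. -/
theorem off_mem [Finite X] {H : Subgroup (TA X)} (hH : Sat H) {g : TA X} (hg : g ∈ stepS H)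
    (ζ : ℕ → X) : ∃ n₁ : ℕ, ∀ k, n₁ ≤ k → ∀ x, x ≠ ζ k → sec g (pref ζ k ++ [x]) ∈ H := by
  obtain ⟨n₀, hn₀⟩ := bad_ray hH hg
  by_cases h0 : sec g (pref ζ n₀) ∈ H
  · refine ⟨n₀, fun k hk x _ => ?_⟩
    rw [A3_split ζ hk, List.append_assoc, sec_append]
    exact hH.sec _ h0 _
  · obtain ⟨ξ, hξ⟩ := hn₀ (pref ζ n₀) (by rw [length_pref]) h0
    -- the shape of a bad word
    have key : ∀ k, n₀ ≤ k → ∀ x, sec g (pref ζ k ++ [x]) ∉ H →
        pref (shift n₀ ζ) (k - n₀) ++ [x] = pref ξ (k - n₀ + 1) := by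
      intro k hk x h
      rw [A3_split ζ hk, List.append_assoc] at h
      have h1 := (hξ _).1 h
      rw [List.length_append, length_pref] at h1
      exact h1
    by_cases hξζ : ξ = shift n₀ ζ
    · refine ⟨n₀, fun k hk x hx => ?_⟩
      by_contra h
      have h1 := key k hk x h
      rw [hξζ, A3_snoc] at h1
      have h2 := List.append_cancel_left h1
      have h3 : x = shift n₀ ζ (k - n₀) := by simpa using h2
      apply hx
      rw [h3]
      show ζ (n₀ + (k - n₀)) = ζ k
      rw [Nat.add_sub_cancel' hk]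
    · obtain ⟨i, hi⟩ := Function.ne_iff.1 hξζ
      refine ⟨n₀ + i + 1, fun k hk x hx => ?_⟩
      by_contra h
      have h1 := key k (by omega) x h
      apply hi
      have h2 := congrArg (fun l : List X => l[i]?) h1
      have h3 : (pref (shift n₀ ζ) (k - n₀) ++ [x])[i]? = some (shift n₀ ζ i) := by
        rw [List.getElem?_append_left (by rw [length_pref]; omega), A3_get _ (by omega)]
      have h4 : (pref ξ (k - n₀ + 1))[i]? = some (ξ i) := A3_get _ (by omega)
      simp only [h3, h4, Option.some.injEq] at h2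
      exact h2.symm

/-- `N = n₁` from `off_mem`; let `k` be the first place where `η` and `ζ` differ; `k ≥ N` and
`pref η (k+1) = pref ζ k ++ [η k]`. -/
theorem iso_ray [Finite X] {H : Subgroup (TA X)} (hH : Sat H) {g : TA X} (hg : g ∈ stepS H)
    (ζ : ℕ → X) : ∃ N : ℕ, ∀ η, η ≠ ζ → pref η N = pref ζ N → ∃ n, sec g (pref η n) ∈ H := by
  classical
  obtain ⟨N, hN⟩ := off_mem hH hg ζ
  refine ⟨N, fun η hne hpre => ?_⟩
  have hex : ∃ k, η k ≠ ζ k := Function.ne_iff.1 hne
  have hk := Nat.find_spec hex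
  have hmin : ∀ i, i < Nat.find hex → η i = ζ i := fun i hi => not_not.1 (Nat.find_min hex hi)
  have hNk : N ≤ Nat.find hex := by
    by_contra h
    push Not at h
    apply hk
    have h2 := congrArg (fun l : List X => l[Nat.find hex]?) hpre
    simp only [A3_get η h, A3_get ζ h, Option.some.injEq] at h2
    exact h2
  have hp : pref η (Nat.find hex) = pref ζ (Nat.find hex) := by
    apply List.map_congr_left
    intro i hi
    exact hmin i (List.mem_range.1 hi)
  refine ⟨Nat.find hex + 1, ?_⟩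
  rw [A3_snoc, hp]
  exact hN _ hNk _ hk

/-- `n₀` from `bad_ray`; `ζ` = the word `w` followed by `ξ`. Prefixes of bad words are bad (`hH.sec`, `sec_append`). -/
theorem deep_ray [Finite X] {H : Subgroup (TA X)} (hH : Sat H) {g : TA X} (hg : g ∈ stepS H) :
    ∃ n₀ : ℕ, ∀ w : List X, n₀ ≤ w.length → sec g w ∉ H →
      ∃ ζ : ℕ → X, pref ζ w.length = w ∧ ∀ n, sec g (pref ζ n) ∉ H := by
  obtain ⟨n₀, hn₀⟩ := bad_ray hH hg
  refine ⟨n₀, fun w hw hbad => ?_⟩
  obtain ⟨ξ, hξ⟩ := hn₀ w hw hbad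
  let ζ : ℕ → X := fun i => if h : i < w.length then w[i] else ξ (i - w.length)
  have h1 : pref ζ w.length = w := by
    apply List.ext_getElem
    · simp
    · intro i h2 h3
      rw [length_pref] at h2
      rw [pref_get _ _ _ h2]
      simp [ζ, h2]
  have h2 : shift w.length ζ = ξ := by
    funext i
    show ζ (w.length + i) = ξ i
    simp [ζ]
  refine ⟨ζ, h1, fun n hn => ?_⟩
  have h3 : sec g (pref ζ (n + w.length)) ∈ H := by
    rw [pref_add, sec_append]
    exact hH.sec _ hn _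
  rw [add_comm, pref_add, h1, h2] at h3
  exact ((hξ (pref ξ n)).2 (by rw [length_pref])) h3

end Pool.Agent.Lib.H67P
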