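import Pool.Agent.Lib.H67P.A1

/-!
# H67P chunk A4 (M/L): finite-state automorphisms of polynomial activity are in some `PP j`
-/

namespace Pool.Agent.Lib.H67P

open Pool.Agent.Lib.Helper67.BA TA

variable {X : Type}

theorem A4_exp (A d : ℕ) : ∃ N : ℕ, A * (N + 1) ^ d < 2 ^ N := by
  have h1 := tendsto_pow_const_div_const_pow_of_one_lt d (by norm_num : (1 : ℝ) < 2)
  have h2 := h1.eventually (gt_mem_nhds (show (0 : ℝ) < 1 / (2 * (A : ℝ) + 1) by positivity))
  obtain ⟨M, hM⟩ := Filter.eventually_atTop.1 h2
  have h3 := hM (M + 1) (by omega)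
  refine ⟨M, ?_⟩
  rw [div_lt_div_iff₀ (by positivity) (by positivity), pow_succ] at h3
  have h4 : (0 : ℝ) < ((M + 1 : ℕ) : ℝ) ^ d := by positivity
  have h5 : (A : ℝ) * ((M + 1 : ℕ) : ℝ) ^ d < 2 ^ M := by linarith
  exact_mod_cast h5

/-- concatenations of copies of `u` and `v` -/
def A4_c (u v : List X) : List Bool → List X
  | [] => []
  | b :: l => (if b then u else v) ++ A4_c u v l

theorem A4_c_length {u v : List X} (h : u.length = v.length) (l : List Bool) :
    (A4_c u v l).length = l.length * u.length := by
  induction l with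
  | nil => simp [A4_c]
  | cons b l ih =>
    rw [A4_c, List.length_append, ih, List.length_cons]
    have : (if b then u else v).length = u.length := by
      cases b
      · simp [h]
      · simp
    rw [this]
    ring

theorem A4_c_inj {u v : List X} (h : u.length = v.length) (hne : u ≠ v) :
    ∀ l l' : List Bool, l.length = l'.length → A4_c u v l = A4_c u v l' → l = l'
  | [], [], _, _ => rfl
  | [], _ :: _, h1, _ => by simp at h1
  | _ :: _, [], h1, _ => by simp at h1
  | b :: l, b' :: l', h1, h2 => by
    rw [A4_c, A4_c] at h2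
    have h3 : (if b then u else v).length = (if b' then u else v).length := by
      cases b <;> cases b' <;> simp [h]
    obtain ⟨h4, h5⟩ := List.append_inj h2 h3
    have h6 : b = b' := by
      cases b <;> cases b' <;> simp at h4 ⊢
      · exact hne h4.symm
      · exact hne h4
    rw [h6, A4_c_inj h hne l l' (by simpa using h1) h5]

theorem A4_c_sec {q : TA X} {u v : List X} (hu : sec q u = q) (hv : sec q v = q)
    (l : List Bool) : sec q (A4_c u v l) = q := by
  induction l with
  | nil => simp [A4_c]
  | cons b l ih =>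
    rw [A4_c, sec_append]
    cases b
    · simp [hv, ih]
    · simp [hu, ih]

/-- Step 1 -/
theorem A4_step1 [Finite X] {g : TA X} {C d : ℕ}
    (hpa : ∀ n, {w : List X | w.length = n ∧ sec g w ≠ 1}.ncard ≤ C * (n + 1) ^ d)
    (w₀ : List X) (h1 : sec g w₀ ≠ 1) {u v : List X} (huv : u.length = v.length)
    (hu : sec (sec g w₀) u = sec g w₀) (hv : sec (sec g w₀) v = sec g w₀) : u = v := by
  by_contra hne
  obtain ⟨N, hN⟩ := A4_exp (C * (w₀.length + u.length + 1) ^ d) d
  have h2 := hpa (w₀.length + N * u.length)
  have h3 : 2 ^ N ≤ {w : List X | w.length = w₀.length + N * u.length ∧ sec g w ≠ 1}.ncard := by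
    have h4 : (Set.univ : Set (List.Vector Bool N)).ncard = 2 ^ N := by
      rw [Set.ncard_univ, Nat.card_eq_fintype_card, card_vector, Fintype.card_bool]
    rw [← h4]
    refine Set.ncard_le_ncard_of_injOn (fun l => w₀ ++ A4_c u v l.1) ?_ ?_
      ((finite_words _).subset fun v hv => hv.1)
    · rintro ⟨l, hl⟩ -
      refine ⟨?_, ?_⟩
      · rw [List.length_append, A4_c_length huv, hl]
      · rw [sec_append, A4_c_sec hu hv]
        exact h1
    · rintro ⟨l, hl⟩ - ⟨l', hl'⟩ - h5
      have h6 := List.append_cancel_left h5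
      apply Subtype.ext
      exact A4_c_inj huv hne l l' (hl.trans hl'.symm) h6
  have h5 : C * (w₀.length + N * u.length + 1) ^ d ≤
      C * (w₀.length + u.length + 1) ^ d * (N + 1) ^ d := by
    rw [mul_assoc, ← mul_pow]
    apply Nat.mul_le_mul_left
    apply Nat.pow_le_pow_left
    nlinarith [Nat.zero_le (w₀.length * N), Nat.zero_le u.length, Nat.zero_le N]
  omega

theorem A4_sub (q : TA X) (w : List X) : Set.range (sec (sec q w)) ⊆ Set.range (sec q) := by
  rintro _ ⟨t, rfl⟩
  exact ⟨w ++ t, sec_append q w t⟩

theorem A4_main [Finite X] {g : TA X} (hfs : (Set.range (sec g)).Finite) {C d : ℕ}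
    (hpa : ∀ n, {w : List X | w.length = n ∧ sec g w ≠ 1}.ncard ≤ C * (n + 1) ^ d) :
    ∀ n : ℕ, ∀ w₀ : List X, (Set.range (sec (sec g w₀))).ncard = n → sec g w₀ ∈ PP X n := by
  intro n
  induction n using Nat.strong_induction_on with
  | _ n ih =>
    intro w₀ hn
    have hfin : (Set.range (sec (sec g w₀))).Finite := hfs.subset (A4_sub g w₀)
    by_cases h1 : sec g w₀ = 1
    · rw [h1]
      exact one_mem _
    have hself : sec g w₀ ∈ Set.range (sec (sec g w₀)) := ⟨[], sec_nil _⟩
    have hpos : 0 < n := by
      rw [← hn]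
      exact (Set.ncard_pos hfin).2 ⟨_, hself⟩
    obtain ⟨n', rfl⟩ : ∃ n', n = n' + 1 := ⟨n - 1, by omega⟩
    refine ⟨?_, n' + 1, fun l => ?_⟩
    · intro ξ
      apply hfin.subset
      rintro h ⟨k, x, -, rfl⟩
      exact ⟨_, rfl⟩
    · rw [← hn]
      refine Set.ncard_le_ncard_of_injOn (fun w => sec (sec g w₀) w) ?_ ?_ hfin
      · intro w _
        exact ⟨w, rfl⟩
      · -- injectivity
        have hbad : ∀ w : List X, sec (sec g w₀) w ∉ PP X n' →
            sec g w₀ ∈ Set.range (sec (sec (sec g w₀) w)) := by
          intro w hw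
          by_contra hcon
          apply hw
          have e1 : Set.range (sec (sec (sec g w₀) w)) ⊂ Set.range (sec (sec g w₀)) := by
            refine ⟨A4_sub _ w, fun h => hcon (h hself)⟩
          have e2 := Set.ncard_lt_ncard e1 hfin
          rw [hn] at e2
          have e3 := ih (Set.range (sec (sec g (w₀ ++ w)))).ncard
            (by rw [sec_append]; exact e2) (w₀ ++ w) rfl
          rw [sec_append] at e3
          exact PP_mono (by omega) e3
        rintro w ⟨hw1, hw2⟩ w' ⟨hw1', -⟩ hww
        obtain ⟨t, ht⟩ := hbad w hw2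
        have e1 : sec (sec g w₀) (w ++ t) = sec g w₀ := by rw [sec_append, ht]
        have e2 : sec (sec g w₀) (w' ++ t) = sec g w₀ := by
          rw [sec_append]
          have e3 : sec (sec g w₀) w = sec (sec g w₀) w' := hww
          rw [← e3, ht]
        have e4 : w ++ t = w' ++ t := A4_step1 hpa w₀ h1
          (by rw [List.length_append, List.length_append, hw1, hw1']) e1 e2
        exact List.append_cancel_right e4

/-- Let `Q = Set.range (sec g)` (finite, closed under sections, contains `g`). For `q ∈ Q` let `R q = Set.range (sec q) ⊆ Q`.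

Step 1: if `q ∈ Q`, `q ≠ 1`, `u ≠ v`, `|u| = |v|`, `sec q u = q = sec q v`, then contradiction: let `q = sec g w₀`. For every list
`l` of Booleans let `c l` be the concatenation of `u`'s and `v`'s; `sec q (c l) = q`, `c` is injective on the lists of length `N`, and so
there are at least `2 ^ N` words `w₀ ++ c l` of length `|w₀| + N * |u|` with section `q ≠ 1`; this is larger than
`C * (|w₀| + N * |u| + 1) ^ d` for large `N` (polynomial versus exponential).

Step 2: for `q ∈ Q`, `q ≠ 1` and every `n` the number of words `w` of length `n` with `q ∈ R (sec q w)` is at most `(R q).ncard`: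
the map `w ↦ sec q w` is injective on them. Indeed if `sec q w = sec q w' = p`, `sec p t = q`, then `sec q (w ++ t) = q = sec q (w' ++ t)` and
Step 1 gives `w ++ t = w' ++ t`.

Step 3: strong induction on `(R q).ncard`: `q ∈ Q → q ∈ PP X (R q).ncard`. If `q = 1`: trivial. Otherwise `(R q).ncard = n + 1`
(it contains `q`). If `sec q w` is such that `q ∉ R (sec q w)` then `R (sec q w)` is a proper subset of `R q`, so by induction (and `PP_mono`)
`sec q w ∈ PP X n`. So the bad words of length `l` are among those of Step 2: at most `n + 1`. `QQ q`: the sections are in the finite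
set `Q`. -/
theorem fs_mem [Finite X] {g : TA X} (hfs : (Set.range (sec g)).Finite) {C d : ℕ}
    (hpa : ∀ n, {w : List X | w.length = n ∧ sec g w ≠ 1}.ncard ≤ C * (n + 1) ^ d) :
    ∃ j, g ∈ PP X j := by
  refine ⟨(Set.range (sec (sec g []))).ncard, ?_⟩
  have := A4_main hfs hpa _ [] rfl
  rwa [sec_nil] at this ⊢

end Pool.Agent.Lib.H67P
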