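import Pool.Agent.Lib.H67P.A1
import Pool.Agent.Lib.Helper67.BA.Isotropy

/-!
# H67P chunk A5 (M): bounded automorphisms of bounded depth are in `PP 1`
-/

namespace Pool.Agent.Lib.H67P

open Pool.Agent.Lib.Helper67.BA TA

variable {X : Type}

theorem A5_key {g : TA X} {n₀ : ℕ} (h : ∀ v : List X, n₀ ≤ v.length → NF g v →
    ∃ ξ : ℕ → X, ∀ w : List X, NF g (v ++ w) ↔ w = pref ξ w.length) (ξ : ℕ → X)
    {k k' : ℕ} {x x' : X} (hk : n₀ ≤ k) (hx : x ≠ ξ k) (h1 : NF g (pref ξ k ++ [x]))
    (h1' : NF g (pref ξ k' ++ [x'])) : ¬ k < k' := by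
  intro hlt
  have e1 : ∀ l, n₀ ≤ l → pref ξ l = pref ξ n₀ ++ pref (shift n₀ ξ) (l - n₀) := by
    intro l hl
    rw [← pref_add]
    congr 1
    omega
  rw [e1 k hk, List.append_assoc] at h1
  rw [e1 k' (by omega), List.append_assoc] at h1'
  obtain ⟨η, hη⟩ := h (pref ξ n₀) (by rw [length_pref]) h1.of_append
  have h2 := (hη _).1 h1
  have h3 := (hη _).1 h1'
  rw [List.length_append, length_pref, List.length_singleton] at h2 h3
  have h4 : x = η (k - n₀) := by
    have e2 : (pref (shift n₀ ξ) (k - n₀) ++ [x])[k - n₀]? = some x := by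
      rw [List.getElem?_append_right (by rw [length_pref]), length_pref]
      simp
    rw [h2, List.getElem?_eq_getElem (by rw [length_pref]; omega),
      pref_get η _ _ (by omega)] at e2
    exact (Option.some.inj e2).symm
  have h5 : ξ k = η (k - n₀) := by
    have e2 : (pref (shift n₀ ξ) (k' - n₀) ++ [x'])[k - n₀]? = some (ξ k) := by
      rw [List.getElem?_append_left (by rw [length_pref]; omega),
        List.getElem?_eq_getElem (by rw [length_pref]; omega), pref_get _ _ _ (by omega), shift]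
      congr 2
      omega
    rw [h3, List.getElem?_eq_getElem (by rw [length_pref]; omega),
      pref_get η _ _ (by omega)] at e2
    exact (Option.some.inj e2).symm
  exact hx (h4.trans h5.symm)

theorem A5_QQ [Finite X] [Nonempty X] {g : TA X} (hg : Bdd g) : QQ g := by
  classical
  intro ξ
  obtain ⟨n₀, hn₀⟩ := norm_aux hg
  obtain ⟨-, D, hD⟩ := hg
  have hfD : (Dep X D : Set (TA X)).Finite := by
    have := finite_Dep (X := X) (m := D)
    exact Set.toFinite _
  obtain ⟨k₁, hk₁⟩ : ∃ k₁, ∀ k x, n₀ ≤ k → x ≠ ξ k → NF g (pref ξ k ++ [x]) → k = k₁ := by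
    by_cases hex : ∃ k x, n₀ ≤ k ∧ x ≠ ξ k ∧ NF g (pref ξ k ++ [x])
    · obtain ⟨k₁, x₁, g1, g2, g3⟩ := hex
      refine ⟨k₁, fun k x f1 f2 f3 => ?_⟩
      have a1 := A5_key hn₀ ξ f1 f2 f3 g3
      have a2 := A5_key hn₀ ξ g1 g2 g3 f3
      omega
    · refine ⟨0, fun k x f1 f2 f3 => absurd ⟨k, x, f1, f2, f3⟩ hex⟩
  have hf1 : (sec g '' {w : List X | w.length ≤ n₀}).Finite :=
    (List.finite_length_le X n₀).image _
  have hf2 : (sec g '' {w : List X | w.length = k₁ + 1}).Finite :=
    (finite_words (k₁ + 1)).image _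
  apply ((hfD.union hf1).union hf2).subset
  rintro h ⟨k, x, hx, rfl⟩
  by_cases hnf : NF g (pref ξ k ++ [x])
  · by_cases hk : k < n₀
    · left; right
      refine ⟨_, ?_, rfl⟩
      show (pref ξ k ++ [x]).length ≤ n₀
      rw [List.length_append, length_pref, List.length_singleton]
      omega
    · right
      refine ⟨_, ?_, rfl⟩
      show (pref ξ k ++ [x]).length = k₁ + 1
      rw [List.length_append, length_pref, List.length_singleton,
        hk₁ k x (by omega) hx hnf]
  · left; left
    exact hD _ (not_NF hnf)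

/-- The bad words (`sec g w ∉ Fin0 X`, that is `NF g w`) have nontrivial section, so their number is at most `C`. `QQ g`: let `ξ` be a ray,
`n₀` from `norm_aux` (BA/Norm), `D` the depth bound. All sections of `g` at non-`NF` words are in the finite set `Dep X D`
(`finite_Dep`), all sections of elements of `Dep X D` too. Words `pref ξ k ++ [x]`, `x ≠ ξ k`, with `k ≥ n₀`: if `pref ξ n₀` is not `NF` then neither
are its extensions. If it is, with ray `η` (`norm_aux`): a word `pref ξ n₀ ++ w` is `NF` iff `w = pref η |w|`; at most one `k`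
has `pref ξ k ++ [x]` `NF` with `x ≠ ξ k` (the place where `shift n₀ ξ` leaves `η`). So all but finitely many of the sections off `ξ` are in the finite set
`Dep X D`. -/
theorem bdd_mem [Finite X] [Nonempty X] {g : TA X} (hg : Bdd g) : g ∈ PP X 1 := by
  refine ⟨A5_QQ hg, ?_⟩
  obtain ⟨⟨C, hC⟩, -⟩ := hg
  refine ⟨C, fun n => ?_⟩
  refine (Set.ncard_le_ncard ?_ ((finite_words n).subset fun v hv => hv.1)).trans (hC n)
  rintro v ⟨h1, h2⟩
  refine ⟨h1, fun h3 => h2 ?_⟩
  rw [h3]
  exact one_mem _

end Pool.Agent.Lib.H67P
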