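import Pool.Agent.Lib.H67P.A1
import Pool.Agent.Lib.Helper67.BA.Isotropy

/-!
# H67P chunk A6 (S/M): the case of finitary automorphisms
-/

namespace Pool.Agent.Lib.H67P

open Pool.Agent.Lib.Helper67.BA TA

universe u

variable {X : Type}

/-- the elements with all coordinates of depth at most `n` -/
def A6_sub (X V : Type) (n : ℕ) : Subgroup (Wr (TA X) V) where
  carrier := {a | ∀ v, a.f v ∈ Dep X n}
  mul_mem' := by
    intro a b ha hb v
    exact mul_mem (ha _) (hb v)
  one_mem' := fun v => one_mem _
  inv_mem' := by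
    intro a ha v
    exact inv_mem (ha _)

theorem A6_finite [Finite X] [Nonempty X] (V : Type) [Finite V] (n : ℕ) :
    Finite (A6_sub X V n) := by
  have := finite_Dep (X := X) (m := n)
  apply Finite.of_injective
    (fun a : A6_sub X V n => ((fun v => ⟨a.1.f v, a.2 v⟩ : V → Dep X n), a.1.p))
  intro a b hab
  apply Subtype.ext
  apply Wr.ext
  · funext v
    have h1 := congrFun (congrArg Prod.fst hab) v
    exact congrArg Subtype.val h1
  · exact congrArg Prod.snd hab

/-- `E` is generated by a finite set `S`, `V` is finite: there is `n` with `(Φ s).f v ∈ Dep X n` for `s ∈ S`, `v ∈ V`. The elements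
`a` of `Wr (TA X) V` with all `a.f v ∈ Dep X n` form a subgroup, so it contains the image of `Φ`; it is finite (`finite_Dep`,
`finite_Wr`, or inject it into `(V → Dep X n) × Equiv.Perm V`). `L` = kernel of `Φ`, of finite index. -/
theorem WW_zero {E : Type u} [Group E] (hE : Group.FG E) [Finite X] [Nonempty X] :
    WW E (Fin0 X) := by
  classical
  intro V _ Φ hΦ
  obtain ⟨S, hS⟩ := hE
  choose K hK using hΦ
  have hfin : (Set.image2 K (S : Set E) (Set.univ : Set V)).Finite :=
    S.finite_toSet.image2 _ Set.finite_univ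
  obtain ⟨M, hM⟩ := hfin.bddAbove
  have h1 : ∀ e, Φ e ∈ A6_sub X V M := by
    have h2 : (⊤ : Subgroup E) ≤ (A6_sub X V M).comap Φ := by
      rw [← hS, Subgroup.closure_le]
      intro s hs v
      exact Dep_mono (hM ⟨s, hs, v, trivial, rfl⟩) (hK s v)
    exact fun e => h2 (Subgroup.mem_top e)
  have h2 : Finite Φ.range := by
    have := A6_finite (X := X) V M
    apply Finite.of_injective (fun a : Φ.range => (⟨a.1, by
      obtain ⟨e, he⟩ := a.2
      rw [← he]
      exact h1 e⟩ : A6_sub X V M))
    intro a b hab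
    exact Subtype.ext (congrArg (fun z : A6_sub X V M => z.1) hab)
  refine ⟨Φ.ker, inferInstance, fun x hx y hy => ?_⟩
  rw [map_mul, map_mul, MonoidHom.mem_ker.1 hx, MonoidHom.mem_ker.1 hy]

end Pool.Agent.Lib.H67P
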