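import Pool.Agent.Lib.H67P.Defs

/-!
# H67P chunk B1 (M): points and truncations
-/

namespace Pool.Agent.Lib.H67P

open Pool.Agent.Lib.Helper67.BA TA

variable {V X : Type}

theorem blow_f_tr (m : ℕ) (a : Wr (TA X) V) (z : V × (ℕ → X)) :
    (blow V X m a).f (tr m z) = sec (a.f z.1) (pref z.2 m) := rfl

/-- `pref_ray` -/
theorem tr_ptA (m : ℕ) (a : Wr (TA X) V) (z : V × (ℕ → X)) :
    tr m (ptA V X a z) = (blow V X m a).p (tr m z) := by
  apply Prod.ext
  · rfl
  · apply Subtype.ext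
    show pref (ray (a.f z.1) z.2) m = a.f z.1 (pref z.2 m)
    exact pref_ray _ _ _

/-- `shift_ray` -/
theorem shift_ptA (m : ℕ) (a : Wr (TA X) V) (z : V × (ℕ → X)) :
    shift m (ptA V X a z).2 = ray ((blow V X m a).f (tr m z)) (shift m z.2) := by
  show shift m (ray (a.f z.1) z.2) = ray (sec (a.f z.1) (pref z.2 m)) (shift m z.2)
  exact shift_ray _ _ _

theorem B1_pref_iff {ξ η : ℕ → X} {n : ℕ} : pref ξ n = pref η n ↔ ∀ i, i < n → ξ i = η i := by
  constructor
  · intro h i hi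
    have h1 := pref_get ξ n i hi
    have h2 := pref_get η n i hi
    simp only [h] at h1
    exact h1.symm.trans h2
  · intro h
    rw [pref, pref]
    apply List.map_congr_left
    intro i hi
    exact h i (List.mem_range.1 hi)

theorem B1_tr_iff {z z' : V × (ℕ → X)} {n : ℕ} :
    tr n z = tr n z' ↔ z.1 = z'.1 ∧ ∀ i, i < n → z.2 i = z'.2 i := by
  rw [← B1_pref_iff]
  constructor
  · intro h
    have h1 : (tr n z).1 = (tr n z').1 := by rw [h]
    have h2 : (tr n z).2.1 = (tr n z').2.1 := by rw [h]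
    exact ⟨h1, h2⟩
  · rintro ⟨h1, h2⟩
    exact Prod.ext h1 (Subtype.ext h2)

/-- compare `pref_le` in BA/NoFree -/
theorem tr_mono {m n : ℕ} (h : m ≤ n) {z z' : V × (ℕ → X)} (h2 : tr n z = tr n z') :
    tr m z = tr m z' := by
  rw [B1_tr_iff] at h2 ⊢
  exact ⟨h2.1, fun i hi => h2.2 i (lt_of_lt_of_le hi h)⟩

/-- `ray_ext` -/
theorem tr_ext {z z' : V × (ℕ → X)} (h : ∀ n, tr n z = tr n z') : z = z' := by
  apply Prod.ext
  · exact (B1_tr_iff.1 (h 0)).1
  · funext i
    exact (B1_tr_iff.1 (h (i + 1))).2 i (Nat.lt_succ_self i)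

theorem tr_ptA_iff (m : ℕ) (a : Wr (TA X) V) (z z' : V × (ℕ → X)) :
    tr m (ptA V X a z) = tr m (ptA V X a z') ↔ tr m z = tr m z' := by
  rw [tr_ptA, tr_ptA]
  exact (blow V X m a).p.injective.eq_iff

/-- Compactness of `V × X^ω`. For instance: give `V` and `X` the discrete topology, the product is compact, an infinite set
has an accumulation point (`Set.Infinite.exists_accPt_principal`), and `{y | tr n y = tr n ζ}` is an open neighbourhood of `ζ`.
Or directly: choose recursively prefixes above which `K` has infinitely many points (`V` and `X` finite). -/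
theorem accum [Finite V] [Finite X] {K : Set (V × (ℕ → X))} (hK : K.Infinite) :
    ∃ ζ, ∀ n, ∃ y ∈ K, y ≠ ζ ∧ tr n y = tr n ζ := by
  classical
  let : TopologicalSpace V := ⊥
  let : TopologicalSpace X := ⊥
  have : DiscreteTopology V := ⟨rfl⟩
  have : DiscreteTopology X := ⟨rfl⟩
  obtain ⟨ζ, hζ⟩ := hK.exists_accPt_principal
  refine ⟨ζ, fun n => ?_⟩
  rw [accPt_iff_nhds] at hζ
  have hU : {y : V × (ℕ → X) | y.1 = ζ.1 ∧ ∀ i ∈ Finset.range n, y.2 i = ζ.2 i} ∈ nhds ζ := by
    apply IsOpen.mem_nhds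
    · apply IsOpen.inter
      · exact (isOpen_discrete {ζ.1}).preimage continuous_fst
      · have h1 : {y : V × (ℕ → X) | ∀ i ∈ Finset.range n, y.2 i = ζ.2 i} =
            ⋂ i ∈ Finset.range n, {y : V × (ℕ → X) | y.2 i = ζ.2 i} := by
          ext y
          simp
        show IsOpen {y : V × (ℕ → X) | ∀ i ∈ Finset.range n, y.2 i = ζ.2 i}
        rw [h1]
        apply isOpen_biInter_finset
        intro i _
        have hc : Continuous (fun y : V × (ℕ → X) => y.2 i) :=
          (continuous_apply i).comp continuous_snd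
        exact (isOpen_discrete {ζ.2 i}).preimage hc
    · exact ⟨rfl, fun _ _ => rfl⟩
  obtain ⟨y, ⟨hy1, hy2⟩, hne⟩ := hζ _ hU
  refine ⟨y, hy2, hne, ?_⟩
  rw [B1_tr_iff]
  exact ⟨hy1.1, fun i hi => hy1.2 i (Finset.mem_range.2 hi)⟩

end Pool.Agent.Lib.H67P
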