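import Pool.Agent.Lib.H67P.Defs

/-!
# H67P chunk B2 (M/L): finiteness of chain components (the key lemma FIN, abstract form)
-/

namespace Pool.Agent.Lib.H67P

theorem B2_symm {P : Type} (B : Set (Equiv.Perm P)) (hBinv : ∀ g ∈ B, g⁻¹ ∈ B) (S : Set P)
    {x y : P} (h : Relation.ReflTransGen (stp B S) x y) :
    Relation.ReflTransGen (stp B S) y x := by
  induction h with
  | refl => exact Relation.ReflTransGen.refl
  | tail _ h2 ih =>
    obtain ⟨hx, hy, g, hg, rfl⟩ := h2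
    exact Relation.ReflTransGen.head ⟨hy, hx, g⁻¹, hBinv g hg, (g.symm_apply_apply _).symm⟩ ih

theorem B2_mem {P : Type} (B : Set (Equiv.Perm P)) (S : Set P) {x y : P} (hx : x ∈ S)
    (h : Relation.ReflTransGen (stp B S) x y) : y ∈ S := by
  induction h with
  | refl => exact hx
  | tail _ h2 _ => exact h2.2.1

theorem B2_mono {P : Type} (ag : ℕ → P → P → Prop) (hmono : ∀ n x y, ag (n + 1) x y → ag n x y)
    {m n : ℕ} (hmn : m ≤ n) {x y : P} (h : ag n x y) : ag m x y := by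
  induction hmn with
  | refl => exact h
  | step _ ih => exact ih (hmono _ _ _ h)

/-- `comp B S x` = the points `y` which can be joined to `x` by a chain inside `S`, each step by an element of `B` (`B` is symmetric,
so for `y, y'` in the same component `y'` can be reached from `y`).

Proof. Suppose `K = comp B S₀ x₀` is infinite, `x₀ ∈ S₀`. All points of `K` are in `S₀`. Let `ζ` be from `hacc K`. Then `ζ ∈ S₁`
(otherwise `hiso ζ` gives `n` with no `y ≠ ζ` in `S₀` with `ag n y ζ`). Let `C = comp B S₁ ζ`, finite by `h1`, `ζ ∈ C ⊆ S₁`.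
Choose `N` with: for `c ∈ C`, `g ∈ B` with `g c ∉ S₁`: `∀ y ∈ S₀, ag N y (g c) → y = g c` (`hiso`, `hmono`, finitely many pairs); for
`c ≠ c'` in `C`: `¬ ag N c c'` (`hsep`, `hmono`). Take `x ∈ K`, `x ≠ ζ`, `ag N x ζ` (`hacc`) and `lam ≥ N` with `ag lam x ζ` and
`¬ ag (lam+1) x ζ` (`hsep`, `Nat.find`). Claim: for every `y` reachable from `x` by a chain inside `S₀` there is `c ∈ C` with
`ag lam y c ∧ ¬ ag (lam+1) y c`. Start: `c = ζ`. Step `y → g y ∈ S₀`: `ag lam (g y) (g c)` and `¬ ag (lam+1) (g y) (g c)` (apply `g⁻¹ ∈ B`).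
If `g c ∉ S₁` then `g y = g c` by the choice of `N`, contradiction to `¬ ag (lam+1)`. So `g c ∈ S₁` and `g c ∈ C`.
Now take `y ∈ K` with `ag (lam+1) y ζ` (`hacc`). By the claim there is `c ∈ C`, `ag lam y c`, `¬ ag (lam+1) y c`; so `c ≠ ζ`, but
`ag lam c ζ`, hence `ag N c ζ`: contradiction. -/
theorem comp_finite {P : Type} (ag : ℕ → P → P → Prop) (hequiv : ∀ n, Equivalence (ag n))
    (hmono : ∀ n x y, ag (n + 1) x y → ag n x y) (hsep : ∀ x y, (∀ n, ag n x y) → x = y)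
    (hacc : ∀ K : Set P, K.Infinite → ∃ ζ, ∀ n, ∃ y ∈ K, y ≠ ζ ∧ ag n y ζ)
    (B : Set (Equiv.Perm P)) (hB : B.Finite) (hBinv : ∀ g ∈ B, g⁻¹ ∈ B)
    (hBag : ∀ g ∈ B, ∀ n x y, ag n x y → ag n (g x) (g y)) (S₀ S₁ : Set P)
    (hiso : ∀ x, x ∉ S₁ → ∃ n, ∀ y ∈ S₀, ag n y x → y = x)
    (h1 : ∀ x ∈ S₁, (comp B S₁ x).Finite) : ∀ x ∈ S₀, (comp B S₀ x).Finite := by
  classical
  intro x₀ hx₀
  by_contra hK
  obtain ⟨ζ, hζ⟩ := hacc _ hK
  have hKS : ∀ y ∈ comp B S₀ x₀, y ∈ S₀ := fun y hy => B2_mem B S₀ hx₀ hy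
  have hζ1 : ζ ∈ S₁ := by
    by_contra h
    obtain ⟨n, hn⟩ := hiso ζ h
    obtain ⟨y, hy, hne, hag⟩ := hζ n
    exact hne (hn y (hKS y hy) hag)
  have hC := h1 ζ hζ1
  have hCS : ∀ c ∈ comp B S₁ ζ, c ∈ S₁ := fun c hc => B2_mem B S₁ hζ1 hc
  have hmono' : ∀ {m n : ℕ}, m ≤ n → ∀ {x y : P}, ag n x y → ag m x y :=
    fun {m n} hmn {x y} h => B2_mono ag hmono hmn h
  -- the level N
  have e1 : ∀ᶠ n in Filter.atTop, ∀ c ∈ comp B S₁ ζ, ∀ g ∈ B, g c ∉ S₁ →
      ∀ y ∈ S₀, ag n y (g c) → y = g c := by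
    rw [Filter.eventually_all_finite hC]
    intro c _
    rw [Filter.eventually_all_finite hB]
    intro g _
    by_cases hgc : g c ∈ S₁
    · exact Filter.Eventually.of_forall fun n h => absurd hgc h
    · obtain ⟨n0, hn0⟩ := hiso _ hgc
      filter_upwards [Filter.eventually_ge_atTop n0] with n hn _ y hy hag
      exact hn0 y hy (hmono' hn hag)
  have e2 : ∀ᶠ n in Filter.atTop, ∀ c ∈ comp B S₁ ζ, ∀ c' ∈ comp B S₁ ζ, c ≠ c' →
      ¬ ag n c c' := by
    rw [Filter.eventually_all_finite hC]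
    intro c _
    rw [Filter.eventually_all_finite hC]
    intro c' _
    by_cases hcc : c = c'
    · exact Filter.Eventually.of_forall fun n h => absurd hcc h
    · have h2 : ∃ n, ¬ ag n c c' := by
        by_contra h
        push Not at h
        exact hcc (hsep c c' h)
      obtain ⟨n0, hn0⟩ := h2
      filter_upwards [Filter.eventually_ge_atTop n0] with n hn _ hag
      exact hn0 (hmono' hn hag)
  obtain ⟨N, hN1, hN2⟩ := (e1.and e2).exists
  obtain ⟨x, hx, hxne, hxN⟩ := hζ N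
  -- the level lam
  have hex : ∃ n, ¬ ag n x ζ := by
    by_contra h
    push Not at h
    exact hxne (hsep x ζ h)
  have hf := Nat.find_spec hex
  have hlt : N < Nat.find hex := by
    by_contra h
    push Not at h
    exact hf (hmono' h hxN)
  obtain ⟨lam, hlam⟩ : ∃ lam, Nat.find hex = lam + 1 := ⟨Nat.find hex - 1, by omega⟩
  rw [hlam] at hf hlt
  have hNlam : N ≤ lam := by omega
  have hlam1 : ag lam x ζ := by
    have := Nat.find_min hex (m := lam) (by omega)
    exact not_not.1 this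
  have hζC : ζ ∈ comp B S₁ ζ := Relation.ReflTransGen.refl
  have claim : ∀ y, Relation.ReflTransGen (stp B S₀) x y →
      ∃ c ∈ comp B S₁ ζ, ag lam y c ∧ ¬ ag (lam + 1) y c := by
    intro y hy
    induction hy with
    | refl => exact ⟨ζ, hζC, hlam1, hf⟩
    | tail _ h2 ih =>
      rename_i b z _
      obtain ⟨c, hc, hc1, hc2⟩ := ih
      obtain ⟨hyS, hzS, g, hg, rfl⟩ := h2
      have h3 : ag lam (g b) (g c) := hBag g hg _ _ _ hc1
      have h4 : ¬ ag (lam + 1) (g b) (g c) := by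
        intro h
        have h5 := hBag g⁻¹ (hBinv g hg) _ _ _ h
        have h6 : g⁻¹ (g b) = b := g.symm_apply_apply b
        have h7 : g⁻¹ (g c) = c := g.symm_apply_apply c
        rw [h6, h7] at h5
        exact hc2 h5
      have h6 : g c ∈ S₁ := by
        by_contra h
        have h7 := hN1 c hc g hg h (g b) hzS (hmono' hNlam h3)
        rw [h7] at h4
        exact h4 ((hequiv _).refl _)
      exact ⟨g c, Relation.ReflTransGen.tail hc ⟨hCS c hc, h6, g, hg, rfl⟩, h3, h4⟩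
  obtain ⟨y, hy, -, hyag⟩ := hζ (lam + 1)
  have hxy : Relation.ReflTransGen (stp B S₀) x y :=
    (B2_symm B hBinv S₀ hx).trans hy
  obtain ⟨c, hc, hc1, hc2⟩ := claim y hxy
  have hcζ : c ≠ ζ := by
    rintro rfl
    exact hc2 hyag
  have h8 : ag lam c ζ := (hequiv lam).trans ((hequiv lam).symm hc1) (hmono _ _ _ hyag)
  exact hN2 c hc ζ hζC hcζ (hmono' hNlam h8)

end Pool.Agent.Lib.H67P
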