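import Pool.Agent.Lib.H67P.A3
import Pool.Agent.Lib.H67P.B1

/-!
# H67P chunk B3 (M): singular points
-/

namespace Pool.Agent.Lib.H67P

open Pool.Agent.Lib.Helper67.BA TA

variable {V X : Type}

/-- `x ∉ Sing σ (stepS H)`: for every `a` there is `n_a` with `h_a = sec ((σ a).f x.1) (pref x.2 n_a) ∈ stepS H`. `iso_ray` for `h_a` and the ray
`shift n_a x.2` gives `N_a`. Take `n` = maximum of `n_a + N_a`. Let `y ∈ Sing σ H`, with generator `a`, `tr n y = tr n x`, and suppose `y ≠ x`.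
Then `y.1 = x.1`, `pref y.2 n_a = pref x.2 n_a`, `η = shift n_a y.2 ≠ shift n_a x.2` and they agree to depth `N_a`; so `sec h_a (pref η i) ∈ H`
for some `i`, that is `sec ((σ a).f y.1) (pref y.2 (n_a + i)) ∈ H` (`pref_add`, `sec_append`): contradiction. -/
theorem sing_iso [Finite X] {k : ℕ} {σ : Fin k → Wr (TA X) V} {H : Subgroup (TA X)}
    (hH : Sat H) {x : V × (ℕ → X)} (hx : x ∉ Sing σ (stepS H)) :
    ∃ n, ∀ y ∈ Sing σ H, tr n y = tr n x → y = x := by
  have h1 : ∀ a, ∃ n, sec ((σ a).f x.1) (pref x.2 n) ∈ stepS H := by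
    intro a
    by_contra hcon
    push Not at hcon
    exact hx ⟨a, hcon⟩
  choose m hm using h1
  choose N hN using fun a => iso_ray hH (hm a) (shift (m a) x.2)
  refine ⟨Finset.univ.sup (fun a => m a + N a), ?_⟩
  rintro y ⟨a, ha⟩ hy
  have hle : m a + N a ≤ Finset.univ.sup (fun a => m a + N a) :=
    Finset.le_sup (f := fun a => m a + N a) (Finset.mem_univ a)
  have hy' := B1_tr_iff.1 (tr_mono hle hy)
  by_contra hne
  have h2 : shift (m a) y.2 ≠ shift (m a) x.2 := by
    intro h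
    apply hne
    apply Prod.ext hy'.1
    funext i
    by_cases hi : i < m a + N a
    · exact hy'.2 i hi
    · have h3 := congrFun h (i - m a)
      have h4 : m a + (i - m a) = i := by omega
      rw [shift, shift, h4] at h3
      exact h3
  have h3 : pref (shift (m a) y.2) (N a) = pref (shift (m a) x.2) (N a) := by
    rw [B1_pref_iff]
    intro i hi
    exact hy'.2 (m a + i) (by omega)
  obtain ⟨i, hi⟩ := hN a _ h2 h3
  apply ha (m a + i)
  have h4 : pref y.2 (m a) = pref x.2 (m a) := by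
    rw [B1_pref_iff]
    intro j hj
    exact hy'.2 j (by omega)
  rw [pref_add, sec_append, h4, hy'.1]
  exact hi

/-- `n = 0` -/
theorem sing_empty {k : ℕ} {σ : Fin k → Wr (TA X) V} {H : Subgroup (TA X)}
    (h : ∀ a v, (σ a).f v ∈ H) : Sing σ H = ∅ := by
  rw [Set.eq_empty_iff_forall_notMem]
  rintro z ⟨a, ha⟩
  apply ha 0
  rw [pref_zero, sec_nil]
  exact h a z.1

/-- otherwise an accumulation point (`accum`) contradicts `sing_iso` (`sing_empty` for `stepS H`) -/
theorem sing_finite [Finite V] [Finite X] {k : ℕ} {σ : Fin k → Wr (TA X) V}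
    {H : Subgroup (TA X)} (hH : Sat H) (h : ∀ a v, (σ a).f v ∈ stepS H) :
    (Sing σ H).Finite := by
  by_contra hinf
  obtain ⟨ζ, hζ⟩ := accum hinf
  have h1 : ζ ∉ Sing σ (stepS H) := by
    rw [sing_empty h]
    exact Set.notMem_empty _
  obtain ⟨n, hn⟩ := sing_iso hH h1
  obtain ⟨y, hy, hne, htr⟩ := hζ n
  exact hne (hn y hy htr)

theorem sing_anti {k : ℕ} {σ : Fin k → Wr (TA X) V} {H H' : Subgroup (TA X)} (h : H ≤ H') :
    Sing σ H' ⊆ Sing σ H := by
  rintro z ⟨a, ha⟩
  exact ⟨a, fun n h1 => ha n (h h1)⟩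

end Pool.Agent.Lib.H67P
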