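import Pool.Agent.Lib.H67P.B2
import Pool.Agent.Lib.H67P.B3

/-!
# H67P chunk B4 (S/M): finiteness of the components of the singular points
-/

namespace Pool.Agent.Lib.H67P

open Pool.Agent.Lib.Helper67.BA TA

variable {V X : Type}

/-- By induction on `i`: for `i ≤ j + 1` the components in `Sing σ (PP X (j + 1 - i))` are finite. `i = 0`: `sing_empty`.
Step: `comp_finite` with `ag n y x = (tr n y = tr n x)`, `S₀ = Sing σ (PP X l)`, `S₁ = Sing σ (PP X (l + 1)) = Sing σ (stepS (PP X l))`,
`sing_iso`, `accum`, `tr_ext`, `tr_mono`, `tr_ptA_iff`. -/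
theorem comp_sing_finite [Finite V] [Finite X] {k : ℕ} {σ : Fin k → Wr (TA X) V} {j : ℕ}
    (h : ∀ a v, (σ a).f v ∈ PP X (j + 1)) (B : Set (Equiv.Perm (V × (ℕ → X))))
    (hB : B.Finite) (hBinv : ∀ g ∈ B, g⁻¹ ∈ B) (hBp : ∀ b ∈ B, ∃ a, b = ptA V X a) :
    ∀ x ∈ Sing σ (PP X 0), (comp B (Sing σ (PP X 0)) x).Finite := by
  have key : ∀ i l, l + i = j + 1 →
      ∀ x ∈ Sing σ (PP X l), (comp B (Sing σ (PP X l)) x).Finite := by
    intro i
    induction i with
    | zero =>
      intro l hl x hx
      have hl' : l = j + 1 := by omega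
      subst hl'
      rw [sing_empty h] at hx
      exact absurd hx (Set.notMem_empty x)
    | succ i ih =>
      intro l hl
      refine comp_finite (fun n y x => tr n y = tr n x) (fun n => ?_) ?_ ?_ ?_ B hB hBinv ?_
        (Sing σ (PP X l)) (Sing σ (PP X (l + 1))) ?_ (ih (l + 1) (by omega))
      · exact ⟨fun x => rfl, fun h => h.symm, fun h h' => h.trans h'⟩
      · intro n x y hxy
        exact tr_mono (Nat.le_succ n) hxy
      · intro x y hxy
        exact tr_ext hxy
      · intro K hK
        exact accum hK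
      · intro g hg n x y hxy
        obtain ⟨a, rfl⟩ := hBp g hg
        exact (tr_ptA_iff n a x y).2 hxy
      · intro x hx
        exact sing_iso (sat_PP l) hx
  exact key (j + 1) 0 (by omega)

end Pool.Agent.Lib.H67P
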