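import Pool.Agent.Lib.H67P.B4

/-!
# H67P chunk B5 (M/L): existence of clusters
-/

namespace Pool.Agent.Lib.H67P

open Pool.Agent.Lib.Helper67.BA TA

variable {V X : Type}

theorem B5_comp_sub {P : Type} {B : Set (Equiv.Perm P)} {S : Set P} {x : P} (hx : x ∈ S) :
    comp B S x ⊆ S := by
  intro y hy
  rcases Relation.ReflTransGen.cases_tail hy with h | ⟨w, -, hw⟩
  · rw [h]
    exact hx
  · exact hw.2.1

/-- `K` = union of the components `comp B (Sing σ (PP X 0)) z`, `z ∈ Sing σ (PP X j)` (`⊆ Sing σ (PP X 0)` by `sing_anti`); finite by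
`sing_finite` (`H = PP X j`) and `comp_sing_finite`; `K ⊆ Sing σ (PP X 0)`, and for `z ∈ K`, `b ∈ B` with `b z ∈ Sing σ (PP X 0)`: `b z ∈ K`.
Choice of `m` (all three conditions are monotone in `m`):
`clos`: for `z ∈ K`, `b ∈ B` with `b z ∉ K`: `b z ∉ Sing σ (PP X 0)`, so for each `a` there is `n` with `sec .. (pref (b z).2 n) ∈ Fin0 X`, and then
the section is trivial at all deep prefixes (`Dep_sec`); finitely many `(z, b, a)`.
`sep`: finitely many pairs of different points `b z ≠ b' z'` are separated at a deep level (`tr_ext`, `tr_mono`).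
`top`: `deep_ray` for `(σ a).f v ∈ PP X (j+1) = stepS (PP X j)` (finitely many `a`, `v`): the point `(v, ζ)` is in `Sing σ (PP X j) ⊆ K`. -/
theorem exists_Cl [Finite V] [Finite X] {k : ℕ} {σ : Fin k → Wr (TA X) V} {j : ℕ}
    (h : ∀ a v, (σ a).f v ∈ PP X (j + 1)) (B : Set (Equiv.Perm (V × (ℕ → X))))
    (hB : B.Finite) (hBinv : ∀ g ∈ B, g⁻¹ ∈ B) (hB1 : 1 ∈ B)
    (hBp : ∀ b ∈ B, ∃ a, b = ptA V X a) : ∃ K m, Cl σ (PP X j) B K m := by
  have hS : ∀ a v, (σ a).f v ∈ stepS (PP X j) := h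
  have hsub : Sing σ (PP X j) ⊆ Sing σ (PP X 0) := sing_anti (PP_mono (Nat.zero_le j))
  obtain ⟨K, hK⟩ : ∃ K : Set (V × (ℕ → X)),
      K = ⋃ z ∈ Sing σ (PP X j), comp B (Sing σ (PP X 0)) z := ⟨_, rfl⟩
  have hKfin : K.Finite := by
    rw [hK]
    exact (sing_finite (sat_PP j) hS).biUnion fun z hz =>
      comp_sing_finite h B hB hBinv hBp z (hsub hz)
  have hKm : ∀ y, y ∈ K ↔ ∃ z ∈ Sing σ (PP X j), y ∈ comp B (Sing σ (PP X 0)) z := by
    intro y
    rw [hK]
    simp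
  have hK0 : K ⊆ Sing σ (PP X 0) := by
    intro y hy
    obtain ⟨z, hz, hy⟩ := (hKm y).1 hy
    exact B5_comp_sub (hsub hz) hy
  have hSK : Sing σ (PP X j) ⊆ K := fun z hz => (hKm z).2 ⟨z, hz, Relation.ReflTransGen.refl⟩
  have hcl : ∀ z ∈ K, ∀ b ∈ B, b z ∈ Sing σ (PP X 0) → b z ∈ K := by
    intro z hz b hb hbz
    obtain ⟨x, hx, hzx⟩ := (hKm z).1 hz
    exact (hKm _).2 ⟨x, hx, Relation.ReflTransGen.tail hzx ⟨hK0 hz, hbz, b, hb, rfl⟩⟩
  have h1 : ∀ᶠ m in Filter.atTop, ∀ z ∈ K, ∀ b ∈ B, b z ∈ K ∨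
      ∀ a, sec ((σ a).f (b z).1) (pref (b z).2 m) = 1 := by
    rw [Filter.eventually_all_finite hKfin]
    intro z hz
    rw [Filter.eventually_all_finite hB]
    intro b hb
    by_cases hbz : b z ∈ K
    · exact Filter.Eventually.of_forall fun m => Or.inl hbz
    · have h2 : b z ∉ Sing σ (PP X 0) := fun h => hbz (hcl z hz b hb h)
      have h3 : ∀ᶠ m in Filter.atTop, ∀ a, sec ((σ a).f (b z).1) (pref (b z).2 m) = 1 := by
        rw [Filter.eventually_all]
        intro a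
        have h4 : ∃ n, sec ((σ a).f (b z).1) (pref (b z).2 n) ∈ Fin0 X := by
          by_contra hcon
          push Not at hcon
          exact h2 ⟨a, hcon⟩
        obtain ⟨n, l, hl⟩ := h4
        rw [Filter.eventually_atTop]
        refine ⟨n + l, fun m hm => ?_⟩
        have h5 : m = n + (m - n) := by omega
        rw [h5, pref_add, sec_append]
        exact Dep_sec hl (by rw [length_pref]; omega)
      exact h3.mono fun m hm => Or.inr hm
  have h2 : ∀ᶠ m in Filter.atTop, ∀ z ∈ K, ∀ b ∈ B, ∀ z' ∈ K, ∀ b' ∈ B,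
      tr m (b z) = tr m (b' z') → b z = b' z' := by
    rw [Filter.eventually_all_finite hKfin]
    intro z hz
    rw [Filter.eventually_all_finite hB]
    intro b hb
    rw [Filter.eventually_all_finite hKfin]
    intro z' hz'
    rw [Filter.eventually_all_finite hB]
    intro b' hb'
    by_cases he : b z = b' z'
    · exact Filter.Eventually.of_forall fun m _ => he
    · have h3 : ∃ n, tr n (b z) ≠ tr n (b' z') := by
        by_contra hcon
        push Not at hcon
        exact he (tr_ext hcon)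
      obtain ⟨n, hn⟩ := h3
      rw [Filter.eventually_atTop]
      exact ⟨n, fun m hm hmm => absurd (tr_mono hm hmm) hn⟩
  have h3 : ∀ᶠ m in Filter.atTop, ∀ a v (w : List X), m ≤ w.length →
      sec ((σ a).f v) w ∉ PP X j → ∃ z ∈ K, z.1 = v ∧ pref z.2 w.length = w := by
    rw [Filter.eventually_all]
    intro a
    rw [Filter.eventually_all]
    intro v
    obtain ⟨n₀, hn₀⟩ := deep_ray (sat_PP j) (hS a v)
    rw [Filter.eventually_atTop]
    refine ⟨n₀, fun m hm w hw hbad => ?_⟩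
    obtain ⟨ζ, hζ, hζ2⟩ := hn₀ w (by omega) hbad
    exact ⟨(v, ζ), hSK ⟨a, hζ2⟩, rfl, hζ⟩
  obtain ⟨m, hm1, hm2, hm3⟩ := (h1.and (h2.and h3)).exists
  exact ⟨K, m, hm1, hm2, hm3⟩

end Pool.Agent.Lib.H67P
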