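import Pool.Agent.Lib.H67P.B1

/-!
# H67P chunk C1 (M): directed letters
-/

namespace Pool.Agent.Lib.H67P

open Pool.Agent.Lib.Helper67.BA TA

variable {V X : Type}

/-- `SemidirectProduct.inr` is a homomorphism, `(1, a) * (1, b) = (1, a * b)`, `ray_mul`; everything else cancels (`group`);
compare `val` in BA/Virt.lean. -/
theorem DD_mul (ρ : ℕ → X) (e d : TA X) (ξ : ℕ → X) :
    DD ρ e (ray d ξ) * DD ρ d ξ = DD ρ (e * d) ξ := by
  sorry

theorem DD_one (ρ : ℕ → X) (ξ : ℕ → X) : DD ρ 1 ξ = 1 := by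
  sorry

theorem DD_inv (ρ : ℕ → X) (d : TA X) (ξ : ℕ → X) :
    (DD ρ d ξ)⁻¹ = DD ρ d⁻¹ (ray d ξ) := by
  sorry

/-- by `sep` (with `b = b' = 1`) the point of `K` above `tr m z` is `z` -/
theorem tl_eq {k : ℕ} {σ : Fin k → Wr (TA X) V} {H : Subgroup (TA X)}
    {B : Set (Equiv.Perm (V × (ℕ → X)))} {K : Set (V × (ℕ → X))} {m : ℕ}
    (hCl : Cl σ H B K m) (hB1 : 1 ∈ B) {z : V × (ℕ → X)} (hz : z ∈ K) :
    tl K m (tr m z) = some (shift m z.2) := by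
  sorry

/-- If `b z ∈ K`: `tl_eq`. Otherwise the label is `1` by `clos`, and `tl K m (tr m (b z)) = none` since `tr m z' = tr m (b z)`, `z' ∈ K` would
give `z' = b z ∈ K` by `sep`; both sides are `1` (`DD_one`). -/
theorem good {k : ℕ} {σ : Fin k → Wr (TA X) V} {H : Subgroup (TA X)}
    {B : Set (Equiv.Perm (V × (ℕ → X)))} {K : Set (V × (ℕ → X))} {m : ℕ}
    (hCl : Cl σ H B K m) (hB1 : 1 ∈ B) {z : V × (ℕ → X)} (hz : z ∈ K)
    {b : Equiv.Perm (V × (ℕ → X))} (hb : b ∈ B) (ρ : ℕ → X) (a : Fin k) :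
    LL ρ ((blow V X m (σ a)).f (tr m (b z))) (tl K m (tr m (b z))) =
      DD ρ ((blow V X m (σ a)).f (tr m (b z))) (shift m (b z).2) := by
  sorry

end Pool.Agent.Lib.H67P
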