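import Pool.Agent.Lib.H67P.C1

/-!
# H67P chunk C2 (M): lifted labels of words
-/

namespace Pool.Agent.Lib.H67P

open Pool.Agent.Lib.Helper67.BA TA

variable {V X : Type}

/-- Two homomorphisms from the free group to `Equiv.Perm (V × List.Vector X m)` which agree on the generators. -/
theorem PT_p {k : ℕ} (ρ : ℕ → X) (σ : Fin k → Wr (TA X) V) (K : Set (V × (ℕ → X))) (m : ℕ)
    (u : FreeGroup (Fin k)) :
    (PT ρ σ K m u).p = (blow V X m (FreeGroup.lift σ u)).p := by
  sorry

/-- Induction on `L`: `FreeGroup.mk ((a, ε) :: L) = FreeGroup.mk [(a, ε)] * FreeGroup.mk L`. With `y'` the image of `y` under `L`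
(`PT_p`): `ε = true`: the label is `LL ρ _ (tl K m y') = inr (_, 1)` since `tl K m y' = none`. `ε = false`: the label of the
inverse letter at `y'` is the inverse of the label at `σ_a⁻¹ y'`, which is the image of `y` under `(a, false) :: L`. -/
theorem wordA {k : ℕ} {σ : Fin k → Wr (TA X) V} {K : Set (V × (ℕ → X))} {m : ℕ} (ρ : ℕ → X)
    (L : List (Fin k × Bool)) (y : V × List.Vector X m)
    (h : ∀ L', L' <:+ L → tl K m ((blow V X m (FreeGroup.lift σ (FreeGroup.mk L'))).p y) = none) :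
    (PT ρ σ K m (FreeGroup.mk L)).f y =
      SemidirectProduct.inr ((blow V X m (FreeGroup.lift σ (FreeGroup.mk L))).f y, 1) := by
  sorry

/-- Induction on `L` as in `wordA`, with `x'` the image of the point `x` under `L` (`tr_ptA`, `shift_ptA`), `DD_mul`, `DD_inv`. -/
theorem wordB {k : ℕ} {σ : Fin k → Wr (TA X) V} {K : Set (V × (ℕ → X))} {m : ℕ} (ρ : ℕ → X)
    (L : List (Fin k × Bool)) (x : V × (ℕ → X))
    (h : ∀ L', L' <:+ L → ∀ a,
      LL ρ ((blow V X m (σ a)).f (tr m (ptA V X (FreeGroup.lift σ (FreeGroup.mk L')) x)))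
        (tl K m (tr m (ptA V X (FreeGroup.lift σ (FreeGroup.mk L')) x))) =
      DD ρ ((blow V X m (σ a)).f (tr m (ptA V X (FreeGroup.lift σ (FreeGroup.mk L')) x)))
        (shift m (ptA V X (FreeGroup.lift σ (FreeGroup.mk L')) x).2)) :
    (PT ρ σ K m (FreeGroup.mk L)).f (tr m x) =
      DD ρ ((blow V X m (FreeGroup.lift σ (FreeGroup.mk L))).f (tr m x)) (shift m x.2) := by
  sorry

end Pool.Agent.Lib.H67P
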