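import Pool.Agent.Lib.H67P.C2

/-!
# H67P chunk C3 (M): the relators die
-/

namespace Pool.Agent.Lib.H67P

open Pool.Agent.Lib.Helper67.BA TA

variable {V X : Type}

/-- `PT r` has trivial permutation part by `PT_p` and `hr`. Let `y : V × List.Vector X m`, `L = r.toWord`, `FreeGroup.mk L = r`. Case 1: for all
suffixes `L'` of `L` no point of `K` is above the vertex `L' y`, that is `tl K m _ = none`: `wordA` and `hr`. Case 2: there are a suffix
`L₂` and `z ∈ K` with `tr m z = L₂ y`. Let `x = (ptA (lift σ (mk L₂)))⁻¹ z`; `tr m x = y` (`tr_ptA`, injectivity), and for every suffix `L₁` the point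
`ptA (lift σ (mk L₁)) x = ptA (lift σ (mk L₁) * (lift σ (mk L₂))⁻¹) z` is `b z` with `b ∈ B` by `hB`; `good` gives the hypothesis of `wordB`;
with `hr` the result is `DD ρ 1 _ = 1` (`DD_one`). -/
theorem PT_rel {k : ℕ} {σ : Fin k → Wr (TA X) V} {H : Subgroup (TA X)}
    {B : Set (Equiv.Perm (V × (ℕ → X)))} {K : Set (V × (ℕ → X))} {m : ℕ}
    (hCl : Cl σ H B K m) (hB1 : 1 ∈ B) (ρ : ℕ → X) (r : FreeGroup (Fin k))
    (hr : FreeGroup.lift σ r = 1)
    (hB : ∀ L₁ L₂, L₁ <:+ r.toWord → L₂ <:+ r.toWord →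
      ptA V X (FreeGroup.lift σ (FreeGroup.mk L₁) * (FreeGroup.lift σ (FreeGroup.mk L₂))⁻¹) ∈ B) :
    PT ρ σ K m r = 1 := by
  sorry

end Pool.Agent.Lib.H67P
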