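import Pool.Agent.Lib.H67P.C2
import Pool.Agent.Lib.H67P.A3

/-!
# H67P chunk C4 (M): the retraction of the lifted labels
-/

namespace Pool.Agent.Lib.H67P

open Pool.Agent.Lib.Helper67.BA TA

variable {V X : Type}

theorem LL_right_none (ρ : ℕ → X) (d : TA X) : (LL ρ d none).right = (d, 1) := by
  sorry

/-- `SemidirectProduct.rightHom` kills the stable letters -/
theorem LL_right_some (ρ : ℕ → X) (d : TA X) (ξ : ℕ → X) :
    (LL ρ d (some ξ)).right = (1, (swapT ρ (ray d ξ))⁻¹ * d * swapT ρ ξ) := by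
  sorry

/-- `ray` by `ray_mul`, `ray_swapT`. The sections off `ρ`: for `x ≠ ρ k`, `swapT ρ ξ` maps `pref ρ k ++ [x]` to `pref ξ k ++ [y]` with `y ≠ ξ k`
(`off_img`, `ray_swapT`), with trivial section there (`sec_swapT_off`); the same for the other swap. So every section of the
product off `ρ` is a section of `d` off `ξ`. -/
theorem iso_mem {H : Subgroup (TA X)} (ρ ξ : ℕ → X) {d : TA X} (h1 : (offs d ξ).Finite)
    (h2 : offs d ξ ⊆ H) : (swapT ρ (ray d ξ))⁻¹ * d * swapT ρ ξ ∈ BBs H ρ := by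
  sorry

/-- First for `u = of a`. Let `y = (v, w)`. If `tl K m y = none` no point of `K` is above `y`, and the label `sec ((σ a).f v) w` is in `H` by `top`
(`|w| = m`). If `tl K m y = some ξ`: `ξ = shift m z.2`, `z ∈ K`, `tr m z = y`; `d = sec ((σ a).f v) (pref z.2 m)`; `offs d ξ` is finite
(`QQ.sec`, `(σ a).f v ∈ stepS H`) and contained in `H`: if `x ≠ z.2 (m + i)` and `sec ((σ a).f v) (pref z.2 (m + i) ++ [x]) ∉ H`, then `top` gives `z' ∈ K` with
`z'.1 = v` and `pref z'.2 (m + i + 1) = pref z.2 (m + i) ++ [x]`, so `tr m z' = tr m z`, `z' = z` by `sep` (with `b = b' = 1`), contradiction; then `iso_mem`.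
In general: the set of `u` with this property for all `y` is closed under products and inverses (`SemidirectProduct.rightHom`,
`FreeGroup.induction_on` or `Subgroup.closure_induction`). -/
theorem PT_mem {k : ℕ} {σ : Fin k → Wr (TA X) V} {H : Subgroup (TA X)} [Finite X]
    {B : Set (Equiv.Perm (V × (ℕ → X)))} {K : Set (V × (ℕ → X))} {m : ℕ}
    (hCl : Cl σ H B K m) (hB1 : 1 ∈ B) (hσ : ∀ a v, (σ a).f v ∈ stepS H) (ρ : ℕ → X)
    (u : FreeGroup (Fin k)) (y : V × List.Vector X m) :
    ((PT ρ σ K m u).f y).right.1 ∈ H ∧ ((PT ρ σ K m u).f y).right.2 ∈ BBs H ρ := by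
  sorry

end Pool.Agent.Lib.H67P
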