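import Pool.Agent.Lib.H67P.C2

/-!
# H67P chunk C5 (S/M): evaluation of the lifted labels
-/

namespace Pool.Agent.Lib.H67P

open Pool.Agent.Lib.Helper67.BA TA

variable {V X : Type}

theorem Ev_one (ρ : ℕ → X) : Ev ρ 1 (1 : TA X) := by
  sorry

theorem Ev_mul {ρ : ℕ → X} {γ γ' : GG X} {g g' : TA X} (h : Ev ρ γ g) (h' : Ev ρ γ' g') :
    Ev ρ (γ * γ') (g * g') := by
  sorry

theorem Ev_inv {ρ : ℕ → X} {γ : GG X} {g : TA X} (h : Ev ρ γ g) : Ev ρ γ⁻¹ g⁻¹ := by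
  sorry

theorem Ev_inj {ρ : ℕ → X} {γ : GG X} {g g' : TA X} (h : Ev ρ γ g) (h' : Ev ρ γ g') :
    g = g' := by
  sorry

/-- compare `rep_valL` in BA/Virt.lean -/
theorem Ev_LL (ρ : ℕ → X) (d : TA X) (o : Option (ℕ → X)) : Ev ρ (LL ρ d o) d := by
  sorry

/-- by `FreeGroup.induction_on` (or closure induction) from `Ev_LL`, `PT_p` -/
theorem Ev_PT {k : ℕ} (ρ : ℕ → X) (σ : Fin k → Wr (TA X) V) (K : Set (V × (ℕ → X))) (m : ℕ)
    (u : FreeGroup (Fin k)) (y : V × List.Vector X m) :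
    Ev ρ ((PT ρ σ K m u).f y) ((blow V X m (FreeGroup.lift σ u)).f y) := by
  sorry

end Pool.Agent.Lib.H67P
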