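import Pool.Agent.Lib.H67P.B5
import Pool.Agent.Lib.H67P.C3
import Pool.Agent.Lib.H67P.C4
import Pool.Agent.Lib.H67P.C5

/-!
# H67P chunk C6 (M/L): the lift of a homomorphism
-/

namespace Pool.Agent.Lib.H67P

open Pool.Agent.Lib.Helper67.BA TA

universe u

variable {V X : Type}

/-- `E = φ (FreeGroup (Fin k))`, kernel = normal closure of the finite set `R` (as at the beginning of `dichotomy` in BA/Main.lean: `hG.out`).
`σ a = Φ (φ (of a))`, so `FreeGroup.lift σ u = Φ (φ u)`, and `FreeGroup.lift σ r = 1` for `r ∈ R`. `B` = all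
`ptA (lift σ (mk L₁) * (lift σ (mk L₂))⁻¹)`, `L₁, L₂` suffixes of `r.toWord`, `r ∈ R`, together with `1`: finite, closed under inverses. `exists_Cl`
gives `K`, `m`. By `PT_rel` the kernel of `PT ρ σ K m` contains `R`, hence the kernel of `φ` (`Subgroup.normalClosure_le_normal`), and `PT`
factors through `E` (`MonoidHom.liftOfSurjective` or `QuotientGroup.lift`): `Ψ (φ u) = PT ρ σ K m u`. The four properties: `PT_p`, `Ev_PT`, `PT_mem`. -/
theorem exists_lift {E : Type u} [Group E] [Group.IsFinitelyPresented E] [Finite X] [Finite V]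
    {j : ℕ} (Φ : E →* Wr (TA X) V) (hΦ : ∀ e v, (Φ e).f v ∈ PP X (j + 1)) (ρ : ℕ → X) :
    ∃ (m : ℕ) (Ψ : E →* Wr (GG X) (V × List.Vector X m)),
      (∀ e, (Ψ e).p = (blow V X m (Φ e)).p) ∧
      (∀ e y, Ev ρ ((Ψ e).f y) ((blow V X m (Φ e)).f y)) ∧
      (∀ e y, ((Ψ e).f y).right.1 ∈ PP X j) ∧
      (∀ e y, ((Ψ e).f y).right.2 ∈ BBs (PP X j) ρ) := by
  sorry

end Pool.Agent.Lib.H67P
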