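import Pool.Agent.Lib.H67P.Defs
import Pool.Agent.Lib.Helper67.BA.Isotropy

/-!
# H67P chunk D1 (M): the sections off a fixed ray
-/

namespace Pool.Agent.Lib.H67P

open Pool.Agent.Lib.Helper67.BA TA

variable {X : Type}

theorem D1_fix {H : Subgroup (TA X)} {ρ : ℕ → X} (b : BBs H ρ) (k : ℕ) :
    b.1 (pref ρ k) = pref ρ k := ray_eq_iff.1 b.2.1 k

theorem D1_succ (ρ : ℕ → X) (n : ℕ) : pref ρ (n + 1) = pref ρ n ++ [ρ n] := by
  rw [pref_add]; rfl

theorem D1_fix' {H : Subgroup (TA X)} {ρ : ℕ → X} (b : BBs H ρ) (n : ℕ) :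
    sec b.1 (pref ρ n) [ρ n] = [ρ n] := by
  have h1 := D1_fix b (n + 1)
  rw [D1_succ, TA.append, D1_fix] at h1
  exact List.append_cancel_left h1

open Classical in
/-- The data at distance `n` on the ray: the sections at the words `pref ρ n ++ [x]`, `x ≠ ρ n`, and the permutation of the letters there.
Compare `dl` in BA/Isotropy.lean (with `m = 1`). -/
noncomputable def offHom (H : Subgroup (TA X)) (ρ : ℕ → X) (n : ℕ) :
    BBs H ρ →* Wr (TA X) (List.Vector X 1) where
  toFun b :=
    { f := fun y => if y.1 = [ρ n] then 1 else sec b.1 (pref ρ n ++ y.1)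
      p := rootY 1 (sec b.1 (pref ρ n)) }
  map_one' := by
    refine Wr.ext (funext fun y => ?_) ?_
    · show (if y.1 = [ρ n] then (1 : TA X) else sec (1 : TA X) (pref ρ n ++ y.1)) = 1
      split_ifs with h
      · rfl
      · exact sec_one _
    · show rootY 1 (sec (1 : TA X) _) = 1
      rw [sec_one, map_one]
  map_mul' a b := by
    refine Wr.ext (funext fun y => ?_) ?_
    · rw [Wr.mul_f]
      show (if y.1 = [ρ n] then (1 : TA X) else sec (a.1 * b.1) (pref ρ n ++ y.1)) =
        (if (rootY 1 (sec b.1 (pref ρ n)) y).1 = [ρ n] then (1 : TA X) else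
          sec a.1 (pref ρ n ++ (rootY 1 (sec b.1 (pref ρ n)) y).1)) *
        (if y.1 = [ρ n] then (1 : TA X) else sec b.1 (pref ρ n ++ y.1))
      by_cases h : y.1 = [ρ n]
      · have h2 : (rootY 1 (sec b.1 (pref ρ n)) y).1 = [ρ n] := by
          rw [rootY_val, h, D1_fix']
        rw [if_pos h, if_pos h2, if_pos h, mul_one]
      · have h2 : (rootY 1 (sec b.1 (pref ρ n)) y).1 ≠ [ρ n] := by
          rw [rootY_val]
          intro h3
          apply h
          apply TA.inj (sec b.1 (pref ρ n))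
          rw [h3, D1_fix']
        rw [if_neg h, if_neg h2, if_neg h, sec_mul, TA.append, D1_fix, rootY_val]
    · show rootY 1 (sec (a.1 * b.1) _) = rootY 1 (sec a.1 _) * rootY 1 (sec b.1 _)
      rw [sec_mul, D1_fix, map_mul]

theorem offHom_f {H : Subgroup (TA X)} {ρ : ℕ → X} (n : ℕ) (b : BBs H ρ) (y : List.Vector X 1)
    (h : y.1 ≠ [ρ n]) : (offHom H ρ n b).f y = sec b.1 (pref ρ n ++ y.1) := if_neg h

theorem offHom_f' {H : Subgroup (TA X)} {ρ : ℕ → X} (n : ℕ) (b : BBs H ρ) (y : List.Vector X 1)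
    (h : y.1 = [ρ n]) : (offHom H ρ n b).f y = 1 := if_pos h

theorem offHom_p {H : Subgroup (TA X)} {ρ : ℕ → X} (n : ℕ) (b : BBs H ρ) :
    (offHom H ρ n b).p = rootY 1 (sec b.1 (pref ρ n)) := rfl

theorem D1_off {H : Subgroup (TA X)} {ρ : ℕ → X} (n : ℕ) (b : BBs H ρ) (y : List.Vector X 1)
    (h : y.1 ≠ [ρ n]) : sec b.1 (pref ρ n ++ y.1) ∈ offs b.1 ρ := by
  obtain ⟨x, hx⟩ := List.length_eq_one_iff.1 y.2
  refine ⟨n, x, ?_, by rw [hx]⟩
  rintro rfl
  exact h hx

/-- `y.1 = [x]`, `x ≠ ρ n` -/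
theorem offHom_mem {H : Subgroup (TA X)} {ρ : ℕ → X} (n : ℕ) (b : BBs H ρ)
    (y : List.Vector X 1) : (offHom H ρ n b).f y ∈ H := by
  by_cases h : y.1 = [ρ n]
  · rw [offHom_f' n b y h]
    exact one_mem H
  · rw [offHom_f n b y h]
    exact b.2.2.2 (D1_off n b y h)

/-- compare `dl_inj` -/
theorem offHom_inj [Nonempty X] {H : Subgroup (TA X)} {ρ : ℕ → X} {b b' : BBs H ρ}
    (h : ∀ n, offHom H ρ n b = offHom H ρ n b') : b = b' := by
  have key : ∀ k n, ∀ w : List X, w.length = k →
      sec b.1 (pref ρ n) w = sec b'.1 (pref ρ n) w := by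
    intro k
    induction k with
    | zero =>
      intro n w hw
      rw [List.length_eq_zero_iff] at hw
      rw [hw, TA.map_nil, TA.map_nil]
    | succ k ih =>
      intro n w hw
      obtain ⟨x, w, rfl⟩ : ∃ x w', w = x :: w' := by
        cases w with
        | nil => simp at hw
        | cons x w => exact ⟨x, w, rfl⟩
      have hw' : w.length = k := by simpa using hw
      have e : x :: w = [x] ++ w := rfl
      have h1 : sec b.1 (pref ρ n) [x] = sec b'.1 (pref ρ n) [x] :=
        congrArg (fun a : Wr (TA X) (List.Vector X 1) => (a.p ⟨[x], rfl⟩).1) (h n)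
      rw [e, TA.append, TA.append (sec b'.1 (pref ρ n)), h1]
      congr 1
      by_cases hx : x = ρ n
      · rw [hx, ← sec_append, ← sec_append, ← D1_succ]
        exact ih _ _ hw'
      · have h2 : (⟨[x], rfl⟩ : List.Vector X 1).1 ≠ [ρ n] := by
          intro h3
          apply hx
          simpa using h3
        have h3 := congrArg (fun a : Wr (TA X) (List.Vector X 1) => a.f ⟨[x], rfl⟩) (h n)
        rw [offHom_f n b _ h2, offHom_f n b' _ h2] at h3
        rw [← sec_append, ← sec_append]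
        have h4 : sec b.1 (pref ρ n ++ [x]) = sec b'.1 (pref ρ n ++ [x]) := h3
        rw [h4]
  apply Subtype.ext
  ext1 w
  have h1 := key w.length 0 w rfl
  simpa using h1

/-- the sections off `ρ` form a finite set, and there are finitely many permutations of the letters -/
theorem offHom_finite [Finite X] {H : Subgroup (TA X)} {ρ : ℕ → X} (b : BBs H ρ) :
    (Set.range fun n => offHom H ρ n b).Finite := by
  classical
  have h1 : ({1} ∪ offs b.1 ρ : Set (TA X)).Finite := (Set.finite_singleton _).union b.2.2.1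
  have h2 : Finite (({1} ∪ offs b.1 ρ : Set (TA X))) := h1.to_subtype
  have h3 : (Set.range fun p : (List.Vector X 1 → ({1} ∪ offs b.1 ρ : Set (TA X))) ×
      Equiv.Perm (List.Vector X 1) => (⟨fun y => (p.1 y).1, p.2⟩ :
        Wr (TA X) (List.Vector X 1))).Finite := Set.finite_range _
  apply h3.subset
  rintro _ ⟨n, rfl⟩
  have h4 : ∀ y, (offHom H ρ n b).f y ∈ ({1} ∪ offs b.1 ρ : Set (TA X)) := by
    intro y
    by_cases h : y.1 = [ρ n]
    · left
      exact offHom_f' n b y h
    · right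
      rw [offHom_f n b y h]
      exact D1_off n b y h
  exact ⟨(fun y => ⟨_, h4 y⟩, (offHom H ρ n b).p), rfl⟩

end Pool.Agent.Lib.H67P
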