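import Pool.Agent.Lib.H67P.D1

/-!
# H67P chunk D2 (M): from `H` to the group `BBs H ρ`
-/

namespace Pool.Agent.Lib.H67P

open Pool.Agent.Lib.Helper67.BA TA

universe u

variable {X : Type}

/-- Let `Φ : E →* Wr (TA X) V` with values in `BBs H ρ`, so `Φ' : E →* Wr (BBs H ρ) V`. For every `n` define
`Ψ n : E →* Wr (TA X) (V × List.Vector X 1)`, `(Ψ n e).f (v, y) = (offHom H ρ n (Φ' e v)).f y`,
`(Ψ n e).p (v, y) = ((Φ e).p v, (offHom H ρ n (Φ' e v)).p y)`; its values are in `H` (`offHom_mem`). `E` is generated by a finite set `S`; for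
`s ∈ S`, `v ∈ V` the elements `offHom H ρ n (Φ' s v)` take only finitely many values as `n` varies (`offHom_finite`), so only finitely many homomorphisms
`Ψ n` occur (a homomorphism is determined by its values on `S`, `MonoidHom.eq_of_eqOn_dense`). For each apply `hWW`, and intersect the finitely many subgroups of finite index
(`Subgroup.finiteIndex_iInf`): `L`. For `x, y ∈ L`: `Ψ n (x * y) = Ψ n (y * x)` for all `n`; hence `(Φ (xy)).p = (Φ (yx)).p` and
`offHom H ρ n (Φ' (xy) v) = offHom H ρ n (Φ' (yx) v)` for all `n`, `v`, and `offHom_inj` gives `Φ (xy) = Φ (yx)`. -/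
theorem WW_BBs {E : Type u} [Group E] (hE : Group.FG E) [Finite X] [Nonempty X]
    {H : Subgroup (TA X)} (hWW : WW E H) (ρ : ℕ → X) : WW E (BBs H ρ) := by
  sorry

end Pool.Agent.Lib.H67P
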