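import Pool.Agent.Lib.Helper67.BA.Virt
import Pool.Agent.Lib.Helper67.BA.Norm
import Pool.Agent.Lib.Helper67.BA.FreeLemmas

/-!
# H67P: definitions

Classes `PP j` of automorphisms of the rooted tree `X^*`, forests `V × X^*`, singular points, clusters, lifted labels.
See `PROOF.md`.
-/

namespace Pool.Agent.Lib.H67P

open Pool.Agent.Lib.Helper67.BA TA

universe u

variable {V X : Type}

/-! ### The classes -/

variable (X) in
/-- finitary automorphisms -/
def Fin0 : Subgroup (TA X) where
  carrier := {g | ∃ k, g ∈ Dep X k}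
  mul_mem' := by
    rintro a b ⟨k, hk⟩ ⟨l, hl⟩
    exact ⟨max k l, mul_mem (Dep_mono (le_max_left _ _) hk) (Dep_mono (le_max_right _ _) hl)⟩
  one_mem' := ⟨0, one_mem _⟩
  inv_mem' := by
    rintro a ⟨k, hk⟩
    exact ⟨k, inv_mem hk⟩

/-- the sections off the ray `ξ` -/
def offs (g : TA X) (ξ : ℕ → X) : Set (TA X) :=
  {h | ∃ (k : ℕ) (x : X), x ≠ ξ k ∧ h = sec g (pref ξ k ++ [x])}

/-- only finitely many sections off every ray -/
def QQ (g : TA X) : Prop := ∀ ξ : ℕ → X, (offs g ξ).Finite

theorem off_img (g : TA X) (ξ : ℕ → X) {k : ℕ} {x : X} (hx : x ≠ ξ k) :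
    ∃ y, y ≠ (ray g ξ) k ∧ g (pref ξ k ++ [x]) = pref (ray g ξ) k ++ [y] := by
  have h1 : (sec g (pref ξ k) [x]).length = 1 := by rw [TA.length]; rfl
  obtain ⟨y, hy⟩ := List.length_eq_one_iff.1 h1
  refine ⟨y, ?_, ?_⟩
  · rintro rfl
    apply hx
    have h2 : g (pref ξ k ++ [x]) = g (pref ξ k ++ [ξ k]) := by
      have h3 : pref ξ k ++ [ξ k] = pref ξ (k + 1) := by
        rw [pref_add]; rfl
      rw [h3, ← pref_ray, TA.append, hy, pref_add, ← pref_ray]
      rfl
    have h3 := List.append_cancel_left (TA.inj g h2)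
    simpa using h3
  · rw [TA.append, hy, ← pref_ray]

theorem QQ.one : QQ (1 : TA X) := by
  intro ξ
  apply (Set.finite_singleton (1 : TA X)).subset
  rintro h ⟨k, x, -, rfl⟩
  exact sec_one _

theorem QQ.mul {a b : TA X} (ha : QQ a) (hb : QQ b) : QQ (a * b) := by
  intro ξ
  apply ((ha (ray b ξ)).image2 (fun x y => x * y) (hb ξ)).subset
  rintro h ⟨k, x, hx, rfl⟩
  obtain ⟨y, hy, hy2⟩ := off_img b ξ hx
  exact ⟨_, ⟨k, y, hy, rfl⟩, _, ⟨k, x, hx, rfl⟩, by rw [sec_mul, hy2]⟩

theorem QQ.inv {a : TA X} (ha : QQ a) : QQ a⁻¹ := by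
  intro ξ
  apply ((ha (ray a⁻¹ ξ)).image (fun x => x⁻¹)).subset
  rintro h ⟨k, x, hx, rfl⟩
  obtain ⟨y, hy, hy2⟩ := off_img a⁻¹ ξ hx
  exact ⟨_, ⟨k, y, hy, rfl⟩, by rw [sec_inv, hy2]⟩

theorem QQ.sec {a : TA X} (ha : QQ a) (u : List X) : QQ (TA.sec a u) := by
  intro ξ
  let η : ℕ → X := fun i => if h : i < u.length then u[i] else ξ (i - u.length)
  have h1 : ∀ k, pref η (u.length + k) = u ++ pref ξ k := by
    intro k
    apply List.ext_getElem
    · simp
    · intro i h2 h3
      rw [length_pref] at h2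
      rw [pref_get _ _ _ h2, List.getElem_append]
      by_cases h4 : i < u.length
      · simp [η, h4]
      · simp only [η, h4, dif_neg, not_false_eq_true]
        rw [pref_get _ _ _ (by omega)]
  apply (ha η).subset
  rintro h ⟨k, x, hx, rfl⟩
  refine ⟨u.length + k, x, ?_, ?_⟩
  · have h2 : η (u.length + k) = ξ k := by simp [η]
    rw [h2]
    exact hx
  · rw [h1, List.append_assoc, sec_append a u]

/-- one more degree of activity -/
def stepS [Finite X] (H : Subgroup (TA X)) : Subgroup (TA X) where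
  carrier := {g | QQ g ∧ ∃ C : ℕ, ∀ n, {w : List X | w.length = n ∧ sec g w ∉ H}.ncard ≤ C}
  mul_mem' := by
    rintro g h ⟨hg, C₁, hC₁⟩ ⟨hh, C₂, hC₂⟩
    refine ⟨hg.mul hh, C₁ + C₂, fun n => ?_⟩
    have h1 : {v : List X | v.length = n ∧ sec (g * h) v ∉ H} ⊆
        {v : List X | v.length = n ∧ sec g (h v) ∉ H} ∪
        {v : List X | v.length = n ∧ sec h v ∉ H} := by
      rintro v ⟨h1, h2⟩
      by_cases h3 : sec h v ∈ H
      · left
        refine ⟨h1, fun h4 => h2 ?_⟩
        rw [sec_mul]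
        exact mul_mem h4 h3
      · right
        exact ⟨h1, h3⟩
    have h2 : {v : List X | v.length = n ∧ sec g (h v) ∉ H}.ncard ≤ C₁ := by
      refine le_trans ?_ (hC₁ n)
      refine Set.ncard_le_ncard_of_injOn (fun v => h v) ?_ ?_
        ((finite_words n).subset fun v hv => hv.1)
      · rintro v ⟨h1, h2⟩
        exact ⟨by rw [TA.length, h1], h2⟩
      · intro v _ w _ h
        exact TA.inj _ h
    calc _ ≤ _ := Set.ncard_le_ncard h1 (((finite_words n).subset fun v hv => hv.1).union
          ((finite_words n).subset fun v hv => hv.1))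
      _ ≤ _ := Set.ncard_union_le _ _
      _ ≤ _ := add_le_add h2 (hC₂ n)
  one_mem' := by
    refine ⟨QQ.one, 0, fun n => ?_⟩
    have h1 : {w : List X | w.length = n ∧ sec (1 : TA X) w ∉ H} = ∅ := by
      ext w
      simp only [sec_one, Set.mem_ofPred_eq, Set.mem_empty_iff_false, iff_false, not_and, not_not]
      exact fun _ => one_mem _
    rw [h1, Set.ncard_empty]
  inv_mem' := by
    rintro g ⟨hg, C, hC⟩
    refine ⟨hg.inv, C, fun n => ?_⟩
    refine le_trans ?_ (hC n)
    refine Set.ncard_le_ncard_of_injOn (fun v => g⁻¹ v) ?_ ?_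
      ((finite_words n).subset fun v hv => hv.1)
    · rintro v ⟨h1, h2⟩
      refine ⟨by rw [TA.length, h1], fun h3 => h2 ?_⟩
      rw [sec_inv]
      exact inv_mem h3
    · intro v _ w _ h
      exact TA.inj _ h

variable (X) in
/-- The classes `PP j`: finitary automorphisms, and inductively. -/
def PP [Finite X] : ℕ → Subgroup (TA X)
  | 0 => Fin0 X
  | j + 1 => stepS (PP j)

/-- closed under sections, and determined by the sections at the letters -/
structure Sat (H : Subgroup (TA X)) : Prop where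
  sec : ∀ g ∈ H, ∀ w, TA.sec g w ∈ H
  up : ∀ g, (∀ x, TA.sec g [x] ∈ H) → g ∈ H

/-! ### Forests -/

variable (V X) in
/-- The action of the wreath product on the points `V × X^ω`. -/
noncomputable def ptA : Wr (TA X) V →* Equiv.Perm (V × (ℕ → X)) where
  toFun a :=
    { toFun := fun z => (a.p z.1, ray (a.f z.1) z.2)
      invFun := fun z => (a.p⁻¹ z.1, ray (a.f (a.p⁻¹ z.1))⁻¹ z.2)
      left_inv := fun z => by
        have h1 : a.p⁻¹ (a.p z.1) = z.1 := a.p.symm_apply_apply _
        simp only [h1, ray_inv_ray]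
      right_inv := fun z => by
        have h1 : a.p (a.p⁻¹ z.1) = z.1 := a.p.apply_symm_apply _
        simp only [h1, ray_ray_inv] }
  map_one' := by
    apply Equiv.ext
    intro z
    show ((1 : Equiv.Perm V) z.1, ray (1 : TA X) z.2) = z
    rw [ray_one]
    rfl
  map_mul' a b := by
    apply Equiv.ext
    intro z
    show ((a.p * b.p) z.1, ray (a.f (b.p z.1) * b.f z.1) z.2) = _
    rw [ray_mul]
    rfl

/-- truncation of a point at level `m` -/
def tr (m : ℕ) (z : V × (ℕ → X)) : V × List.Vector X m := (z.1, ⟨pref z.2 m, length_pref _ _⟩)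

variable (V X) in
/-- The labels at level `m`. -/
def blow (m : ℕ) : Wr (TA X) V →* Wr (TA X) (V × List.Vector X m) where
  toFun a :=
    { f := fun y => sec (a.f y.1) y.2.1
      p :=
        { toFun := fun y => (a.p y.1, ⟨a.f y.1 y.2.1, by rw [TA.length]; exact y.2.2⟩)
          invFun := fun y => (a.p⁻¹ y.1, ⟨(a.f (a.p⁻¹ y.1))⁻¹ y.2.1, by
            rw [TA.length]; exact y.2.2⟩)
          left_inv := fun y => by
            apply Prod.ext
            · simp
            · apply Subtype.ext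
              simp
          right_inv := fun y => by
            apply Prod.ext
            · simp
            · apply Subtype.ext
              simp } }
  map_one' := by
    refine Wr.ext (funext fun y => ?_) ?_
    · show sec ((1 : Wr (TA X) V).f y.1) y.2.1 = 1
      simp
    · apply Equiv.ext
      intro y
      rfl
  map_mul' a b := by
    refine Wr.ext (funext fun y => ?_) ?_
    · show sec (a.f (b.p y.1) * b.f y.1) y.2.1 = _
      rw [sec_mul]
      rfl
    · apply Equiv.ext
      intro y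
      rfl

/-- The points at which the sections of some generator stay outside `H`. -/
def Sing {k : ℕ} (σ : Fin k → Wr (TA X) V) (H : Subgroup (TA X)) : Set (V × (ℕ → X)) :=
  {z | ∃ a, ∀ n, sec ((σ a).f z.1) (pref z.2 n) ∉ H}

/-- one step of a chain inside `S` -/
def stp {P : Type} (B : Set (Equiv.Perm P)) (S : Set P) (x y : P) : Prop :=
  x ∈ S ∧ y ∈ S ∧ ∃ g ∈ B, y = g x

/-- chain component -/
def comp {P : Type} (B : Set (Equiv.Perm P)) (S : Set P) (x : P) : Set P :=
  {y | Relation.ReflTransGen (stp B S) x y}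

/-- The clusters: a finite set `K` of points which contains the singular points of top degree and is closed under
the moves in `B` inside the singular points; the level `m` separates everything. -/
structure Cl {k : ℕ} (σ : Fin k → Wr (TA X) V) (H : Subgroup (TA X))
    (B : Set (Equiv.Perm (V × (ℕ → X)))) (K : Set (V × (ℕ → X))) (m : ℕ) : Prop where
  clos : ∀ z ∈ K, ∀ b ∈ B, b z ∈ K ∨ ∀ a, sec ((σ a).f (b z).1) (pref (b z).2 m) = 1
  sep : ∀ z ∈ K, ∀ b ∈ B, ∀ z' ∈ K, ∀ b' ∈ B, tr m (b z) = tr m (b' z') → b z = b' z'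
  top : ∀ a v (w : List X), m ≤ w.length → sec ((σ a).f v) w ∉ H →
    ∃ z ∈ K, z.1 = v ∧ pref z.2 w.length = w

/-! ### Lifted labels -/

variable (X) in
/-- the target group: `(TA × TA) * (free group on the rays and one more letter)` -/
abbrev GG : Type := VV (TA X × TA X) (Option (ℕ → X))

/-- directed letter -/
noncomputable def DD (ρ : ℕ → X) (d : TA X) (ξ : ℕ → X) : GG X :=
  tt (some (ray d ξ)) * tt none *
    SemidirectProduct.inr (1, (swapT ρ (ray d ξ))⁻¹ * d * swapT ρ ξ) *
      (tt none)⁻¹ * (tt (some ξ))⁻¹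

/-- lifted letter: directed if a ray is given -/
noncomputable def LL (ρ : ℕ → X) (d : TA X) : Option (ℕ → X) → GG X
  | none => SemidirectProduct.inr (d, 1)
  | some ξ => DD ρ d ξ

open Classical in
/-- the tail of the point of `K` above a vertex of level `m` -/
noncomputable def tl (K : Set (V × (ℕ → X))) (m : ℕ) (y : V × List.Vector X m) :
    Option (ℕ → X) :=
  if h : ∃ z ∈ K, tr m z = y then some (shift m h.choose.2) else none

/-- the lifted recursion on the free group -/
noncomputable def PT {k : ℕ} (ρ : ℕ → X) (σ : Fin k → Wr (TA X) V) (K : Set (V × (ℕ → X)))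
    (m : ℕ) : FreeGroup (Fin k) →* Wr (GG X) (V × List.Vector X m) :=
  FreeGroup.lift fun a =>
    ⟨fun y => LL ρ ((blow V X m (σ a)).f y) (tl K m y), (blow V X m (σ a)).p⟩

/-- the representation of the target group -/
noncomputable def repG (ρ : ℕ → X) : GG X →* Equiv.Perm (Bool × TA X) :=
  vlift
    { toFun := fun c : TA X × TA X => twoP c.1 c.2
      map_one' := by
        apply Equiv.ext
        rintro ⟨i, x⟩
        cases i <;> simp [twoP]
      map_mul' := by
        intro a b
        apply Equiv.ext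
        rintro ⟨i, x⟩
        cases i <;> simp [twoP, mul_assoc] }
    (fun e => match e with
      | none => swP
      | some ξ => twoP (swapT ρ ξ) 1)

/-- `γ` evaluates to `g` -/
def Ev (ρ : ℕ → X) (γ : GG X) (g : TA X) : Prop :=
  ∀ x, repG ρ γ (true, x) = (true, g * x)

/-- automorphisms fixing the ray, with finitely many sections off the ray, all in `H` -/
def BBs (H : Subgroup (TA X)) (ρ : ℕ → X) : Subgroup (TA X) where
  carrier := {g | ray g ρ = ρ ∧ (offs g ρ).Finite ∧ offs g ρ ⊆ H}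
  mul_mem' := by
    rintro a b ⟨ha, ha1, ha2⟩ ⟨hb, hb1, hb2⟩
    refine ⟨by rw [ray_mul, hb, ha], ?_, ?_⟩
    · apply (ha1.image2 (fun x y => x * y) hb1).subset
      rintro h ⟨k, x, hx, rfl⟩
      obtain ⟨y, hy, hy2⟩ := off_img b ρ hx
      rw [hb] at hy hy2
      exact ⟨_, ⟨k, y, hy, rfl⟩, _, ⟨k, x, hx, rfl⟩, by rw [sec_mul, hy2]⟩
    · rintro h ⟨k, x, hx, rfl⟩
      obtain ⟨y, hy, hy2⟩ := off_img b ρ hx
      rw [hb] at hy hy2
      rw [sec_mul, hy2]
      exact mul_mem (ha2 ⟨k, y, hy, rfl⟩) (hb2 ⟨k, x, hx, rfl⟩)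
  one_mem' := by
    refine ⟨ray_one ρ, QQ.one ρ, ?_⟩
    rintro h ⟨k, x, hx, rfl⟩
    rw [sec_one]
    exact one_mem H
  inv_mem' := by
    rintro a ⟨ha, ha1, ha2⟩
    have h0 : ray a⁻¹ ρ = ρ := by
      conv_lhs => rw [← ha]
      exact ray_inv_ray _ _
    refine ⟨h0, ?_, ?_⟩
    · apply (ha1.image (fun x => x⁻¹)).subset
      rintro h ⟨k, x, hx, rfl⟩
      obtain ⟨y, hy, hy2⟩ := off_img a⁻¹ ρ hx
      rw [h0] at hy hy2
      exact ⟨_, ⟨k, y, hy, rfl⟩, by rw [sec_inv, hy2]⟩
    · rintro h ⟨k, x, hx, rfl⟩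
      obtain ⟨y, hy, hy2⟩ := off_img a⁻¹ ρ hx
      rw [h0] at hy hy2
      rw [sec_inv, hy2]
      exact inv_mem (ha2 ⟨k, y, hy, rfl⟩)

/-! ### Group properties -/

/-- `E` is not large: homomorphisms from subgroups of finite index to free groups have
commutative image. -/
def NL (E : Type u) [Group E] : Prop :=
  ∀ (H : Subgroup E), H.FiniteIndex → ∀ (Z : Type) (f : H →* FreeGroup Z) (x y : H),
    f x * f y = f y * f x

/-- The statement of the induction. -/
def WW (E : Type u) [Group E] (H : Subgroup (TA X)) : Prop :=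
  ∀ (V : Type) [Finite V] (Φ : E →* Wr (TA X) V), (∀ e v, (Φ e).f v ∈ H) →
    ∃ L : Subgroup E, L.FiniteIndex ∧ ∀ x ∈ L, ∀ y ∈ L, Φ (x * y) = Φ (y * x)

/-- `H` contains no free group of rank two. -/
def NF2 (H : Subgroup (TA X)) : Prop :=
  ∀ ψ : FreeGroup Bool →* TA X, Function.Injective ψ → ¬ ∀ u, ψ u ∈ H

/-- functoriality of the wreath product -/
def Wr.map' {T T' Y : Type} [Group T] [Group T'] (h : T →* T') : Wr T Y →* Wr T' Y where
  toFun a := ⟨fun y => h (a.f y), a.p⟩
  map_one' := by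
    refine Wr.ext (funext fun y => ?_) rfl
    exact map_one h
  map_mul' a b := by
    refine Wr.ext (funext fun y => ?_) rfl
    exact map_mul h _ _

end Pool.Agent.Lib.H67P
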