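import Mathlib

/-!
# H67P chunk E1 (S): maps of free groups
-/

namespace Pool.Agent.Lib.H67P

/-- Choose `g : β → α` with `g (f a) = a` for all letters `a` of `w` (`α` is nonempty since `w ≠ 1`). Then
`FreeGroup.map g (FreeGroup.map f w) = w`: write `w = mk w.toWord`; `FreeGroup.map` acts on `mk L` by mapping the letters. So
`FreeGroup.map f w = 1` would give `w = 1`. -/
theorem map_ne_one {α β : Type} [DecidableEq α] (f : α → β) (w : FreeGroup α) (hw : w ≠ 1)
    (hinj : Set.InjOn f {a | ∃ b, (a, b) ∈ w.toWord}) : FreeGroup.map f w ≠ 1 := by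
  sorry

end Pool.Agent.Lib.H67P
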