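import Pool.Agent.Lib.H67P.Defs

/-!
# H67P chunk E2 (M): finite quotients
-/

namespace Pool.Agent.Lib.H67P

open Pool.Agent.Lib.Helper67.BA TA

/-- functoriality of `VV` in the first group: `SemidirectProduct.map` with `FreeGroup.map (Prod.map q id)` and `q` -/
noncomputable def VVmap {C C' E : Type} [Group C] [Group C'] (q : C →* C') :
    VV C E →* VV C' E :=
  SemidirectProduct.map (FreeGroup.map (Prod.map q id)) q (by
    sorry)

theorem VVmap_left {C C' E : Type} [Group C] [Group C'] (q : C →* C') (γ : VV C E) :
    (VVmap q γ).left = FreeGroup.map (Prod.map q id) γ.left := by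
  sorry

theorem VVmap_right {C C' E : Type} [Group C] [Group C'] (q : C →* C') (γ : VV C E) :
    (VVmap q γ).right = q γ.right := by
  sorry

/-- `D = Equiv.Perm (List.Vector X n) × Equiv.Perm (List.Vector X n)`, `q (a, b) = (rootY n a, rootY n b)`, with `n` so large that it separates the finitely many
elements: different automorphisms differ on some word, and on all longer words having it as a prefix (`rootY` at a lower level is determined by `rootY` at a
higher level; `X` is nonempty). -/
theorem exists_quot {X : Type} [Finite X] [Nonempty X] (s : Set (TA X × TA X))
    (hs : s.Finite) : ∃ (D : Type) (_ : Group D) (_ : Finite D) (q : TA X × TA X →* D),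
      Set.InjOn q s := by
  sorry

end Pool.Agent.Lib.H67P
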