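import Pool.Agent.Lib.H67P.E1
import Pool.Agent.Lib.H67P.E2

/-!
# H67P chunk E3 (M/L): the free group argument
-/

namespace Pool.Agent.Lib.H67P

open Pool.Agent.Lib.Helper67.BA TA

universe u

/-- (a) For a homomorphism `q : TA X × TA X →* D`, `D` finite, let `Lq ≤ L` be the kernel of `x ↦ q (c x).right`; of finite index in `L`, hence (mapped to `E`) in
`E`; `x ↦ (VVmap q (c x)).left` is a homomorphism on it, with values in `FreeGroup (D × Option (ℕ → X))`; by `hNL` its image is
commutative. (b) Let `D₀ = {u ∈ L | (c u).right = 1}`; it contains the commutators by `hr`, and `(c u).left` is multiplicative on it. For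
`u, u' ∈ D₀` the elements `(c u).left`, `(c u').left` commute: otherwise their commutator `w ≠ 1`; choose by `exists_quot` (the finite
set of `TA X × TA X`-components of the letters of `w`) a `q` such that `Prod.map q id` is injective on the letters of `w`; `map_ne_one` contradicts (a)
(`D₀ ≤ Lq`). (c) If `c (x * y) = c (y * x)` for all `x y : L` take `L' = L`. Otherwise there is a commutator `z₀ = x₀ y₀ x₀⁻¹ y₀⁻¹` with
`z = (c z₀).left ≠ 1`, `z₀ ∈ D₀`. Choose `q` injective on the letters of `z`, so `zbar = FreeGroup.map _ z ≠ 1`. `L' = Lq`. For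
`x, y ∈ Lq`: `u = (c (x y x⁻¹ y⁻¹)).left`; its image `ubar = 1` by (a); `u`, `z` commute by (b). By `cyclic_of_comm` (BA/FreeLemmas, for the closure of
`{u, z}`) `u = w ^ a`, `z = w ^ b`; `zbar ^ a = ubar ^ b = 1`, and free groups are torsion free, so `a = 0`, `u = 1`. Since also the right part of the commutator is
`1`: `c (x y x⁻¹ y⁻¹) = 1`. -/
theorem free_arg {X : Type} [Finite X] [Nonempty X] {E : Type u} [Group E] (hNL : NL E)
    (L : Subgroup E) (hL : L.FiniteIndex) (c : L →* GG X)
    (hr : ∀ x y, (c (x * y)).right = (c (y * x)).right) :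
    ∃ L' : Subgroup E, L'.FiniteIndex ∧ L' ≤ L ∧
      ∀ x y : L, x.1 ∈ L' → y.1 ∈ L' → c (x * y) = c (y * x) := by
  sorry

end Pool.Agent.Lib.H67P
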