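import Pool.Agent.Lib.H67P.C6
import Pool.Agent.Lib.H67P.D2
import Pool.Agent.Lib.H67P.E3

/-!
# H67P chunk F1 (M): the induction step
-/

namespace Pool.Agent.Lib.H67P

open Pool.Agent.Lib.Helper67.BA TA

universe u

variable {X : Type}

/-- Let `ρ` be any ray, `m`, `Ψ` from `exists_lift`. `c₁ = (Wr.map' (fst ∘ rightHom)) ∘ Ψ` has values in `PP X j`, `c₂` (with `snd`) has values in
`BBs (PP X j) ρ`; `ih` and `WW_BBs` (with `ih`) give subgroups `L₁`, `L₂` of finite index on which they commute. Let
`L = L₁ ⊓ L₂ ⊓ (kernel of e ↦ (Ψ e).p)`, of finite index. For `y : V × List.Vector X m` the map `e ↦ (Ψ e).f y` is a homomorphism `L →* GG X` whose right part is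
commutative; `free_arg` gives `L' y`. Let `L'` be the intersection over the finitely many `y`. For `a, b ∈ L'`: `(Ψ (ab)).f y = (Ψ (ba)).f y` for all
`y`, and by `Ev_inj` `blow V X m (Φ (ab))` and `blow V X m (Φ (ba))` have the same labels; their permutation parts are trivial. Hence `Φ (ab) = Φ (ba)`: the
permutation part on `V` is determined (`List.Vector X m` is nonempty), and `(Φ (ab)).f v`, `(Φ (ba)).f v` agree on all words of length `m` and have the same sections there
(`TA.eq_of`). -/
theorem WW_step {E : Type u} [Group E] [Group.IsFinitelyPresented E] [Finite X] [Nonempty X]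
    (hNL : NL E) (j : ℕ) (ih : WW E (PP X j)) : WW E (PP X (j + 1)) := by
  sorry

end Pool.Agent.Lib.H67P
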