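import Pool.Agent.Lib.H67P.F1
import Pool.Agent.Lib.H67P.A6

/-!
# H67P chunk F2 (S): the dichotomy
-/

namespace Pool.Agent.Lib.H67P

open Pool.Agent.Lib.Helper67.BA TA

universe u

variable {X : Type}

theorem WW_all {E : Type u} [Group E] [Group.IsFinitelyPresented E] [Finite X] [Nonempty X]
    (hNL : NL E) (hfg : Group.FG E) (j : ℕ) : WW E (PP X j) := by
  induction j with
  | zero => exact WW_zero hfg
  | succ j ih => exact WW_step hNL j ih

/-- If `E` is not large then `NL E` by `exists_surj_of_noncomm`. `E` is finitely generated (from `hG.out`, or an instance), so all `π e` are in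
one `PP X j` (`PP_mono`). `WW_all` for `V = Unit` and `Φ e = ⟨fun _ => π e, 1⟩`. -/
theorem dichotomy {E : Type u} [Group E] [hG : Group.IsFinitelyPresented E] [Finite X]
    [Nonempty X] (π : E →* TA X) (hπ : ∀ e, ∃ j, π e ∈ PP X j) :
    (∃ H : Subgroup E, H.FiniteIndex ∧ ∀ x ∈ H, ∀ y ∈ H, π (x * y) = π (y * x)) ∨
    ∃ H : Subgroup E, H.FiniteIndex ∧ ∃ f : H →* FreeGroup Bool, Function.Surjective f := by
  sorry

end Pool.Agent.Lib.H67P
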