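import Pool.Agent.Lib.H67P.Defs
import Pool.Agent.Lib.Helper67.BA.Iso

/-!
# H67P chunk N1 (M): the orbit is a forest away from the singular vertices
-/

namespace Pool.Agent.Lib.H67P

open Pool.Agent.Lib.Helper67.BA TA

variable {X : Type}

/-- the relation: joined by an element with trivial section -/
def N1_s (ψ : FreeGroup Bool →* TA X) : Setoid (List X) where
  r w w' := ∃ u, w' = ψ u w ∧ sec (ψ u) w = 1
  iseqv :=
    { refl := fun w => ⟨1, by rw [map_one]; rfl, by rw [map_one, sec_one]⟩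
      symm := by
        rintro w _ ⟨u, rfl, h⟩
        refine ⟨u⁻¹, by rw [map_inv, inv_apply_self], ?_⟩
        rw [map_inv, sec_inv, inv_apply_self, h, inv_one]
      trans := by
        rintro w _ _ ⟨u, rfl, h⟩ ⟨v, rfl, h'⟩
        refine ⟨v * u, by rw [map_mul, mul_apply], ?_⟩
        rw [map_mul, sec_mul, h, h', one_mul] }

/-- the forest inequality -/
theorem forest [Finite X] (ψ : FreeGroup Bool →* TA X) (v₀ : List X)
    (h : ∀ u, u ≠ 1 → ψ u v₀ = v₀ → sec (ψ u) v₀ ≠ 1) :
    {w | ∃ u, w = ψ u v₀}.ncard ≤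
      2 * ∑ x : Bool × Bool, {w | (∃ u, w = ψ u v₀) ∧ sec (ψ (gen x)) w ≠ 1}.ncard := by
  classical
  set M : Set (List X) := {w | ∃ u, w = ψ u v₀} with hM
  have hMf : M.Finite := by
    apply (finite_words (X := X) v₀.length).subset
    rintro w ⟨u, rfl⟩
    exact TA.length _ _
  have ha : ∀ w ∈ M, ∀ u, ψ u w = w → sec (ψ u) w = 1 → u = 1 := by
    rintro w ⟨v, rfl⟩ u h1 h2
    by_contra hu
    apply h (v⁻¹ * u * v)
    · intro h3
      apply hu
      have h4 : u = v * (v⁻¹ * u * v) * v⁻¹ := by group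
      rw [h4, h3]
      group
    · rw [map_mul, map_mul, mul_apply, mul_apply, h1, map_inv, inv_apply_self]
    · rw [map_mul, map_mul, sec_mul, sec_mul, h1, h2, map_inv, sec_inv, inv_apply_self, mul_one,
        inv_mul_cancel]
  have huniq : ∀ w ∈ M, ∀ u u', ψ u w = ψ u' w → sec (ψ u) w = 1 → sec (ψ u') w = 1 →
      u = u' := by
    intro w hw u u' h1 h2 h3
    have h4 : u'⁻¹ * u = 1 := by
      apply ha w hw
      · rw [map_mul, mul_apply, h1, map_inv, inv_apply_self]
      · rw [map_mul, sec_mul, h1, h2, map_inv, sec_inv, inv_apply_self, h3, inv_one, one_mul]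
    exact (inv_mul_eq_one.1 h4).symm
  let r : List X → List X := fun w => (Quotient.mk (N1_s ψ) w).out
  have hr : ∀ w, (N1_s ψ).r (r w) w := fun w => Quotient.mk_out (s := N1_s ψ) w
  have hr2 : ∀ w w', (N1_s ψ).r w w' → r w = r w' := fun w w' hww => by
    show (Quotient.mk (N1_s ψ) w).out = (Quotient.mk (N1_s ψ) w').out
    rw [Quotient.sound (s := N1_s ψ) hww]
  choose ν hν1 hν2 using hr
  have hrM : ∀ w ∈ M, r w ∈ M := by
    rintro w ⟨u, hu⟩
    refine ⟨(ν w)⁻¹ * u, ?_⟩
    rw [map_mul, mul_apply, ← hu, map_inv]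
    have h1 := congrArg (fun z => (ψ (ν w))⁻¹ z) (hν1 w)
    simp only [inv_apply_self] at h1
    exact h1.symm
  have hff : ∀ i w, ψ (ff i (ν w)) (r w) = ψ (gen (chooseL i (ν w))) w := by
    intro i w
    rw [ff, map_mul, mul_apply, ← hν1 w]
  let f : Bool × List X → List X := fun p => ψ (ff p.1 (ν p.2)) (r p.2)
  have hf : ∀ i w, w ∈ M → sec (ψ (gen (chooseL i (ν w)))) w = 1 →
      r (f (i, w)) = r w ∧ ν (f (i, w)) = ff i (ν w) := by
    intro i w hw h1
    have h2 : sec (ψ (ff i (ν w))) (r w) = 1 := by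
      rw [ff, map_mul, sec_mul, hν2, ← hν1 w, h1, mul_one]
    have h3 : r (f (i, w)) = r w := by
      have h4 : (N1_s ψ).r (r w) (f (i, w)) := ⟨_, rfl, h2⟩
      rw [← hr2 _ _ h4]
      exact hr2 _ _ ⟨ν w, hν1 w, hν2 w⟩
    refine ⟨h3, ?_⟩
    apply huniq (r w) (hrM w hw)
    · have h4 := hν1 (f (i, w))
      rw [h3] at h4
      exact h4.symm
    · have h4 := hν2 (f (i, w))
      rw [h3] at h4
      exact h4
    · exact h2
  let Mf := hMf.toFinset
  let P : Finset (Bool × List X) := Finset.univ ×ˢ Mf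
  let T : Bool × List X → Prop := fun p => sec (ψ (gen (chooseL p.1 (ν p.2)))) p.2 = 1
  have h1 : (P.filter T).card ≤ Mf.card := by
    apply Finset.card_le_card_of_injOn f
    · rintro ⟨i, w⟩ hp
      simp only [P, Mf, Finset.coe_filter, Finset.mem_product, Finset.mem_univ, true_and,
        Set.Finite.mem_toFinset, Set.mem_ofPred_eq] at hp
      rw [Finset.mem_coe, Set.Finite.mem_toFinset]
      obtain ⟨⟨u, hu⟩, -⟩ := hp
      refine ⟨gen (chooseL i (ν w)) * u, ?_⟩
      show ψ (ff i (ν w)) (r w) = _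
      rw [hff, map_mul, mul_apply, ← hu]
    · rintro ⟨i, w⟩ hp ⟨i', w'⟩ hp' heq
      simp only [P, Mf, T, Finset.coe_filter, Finset.mem_product, Finset.mem_univ, true_and,
        Set.Finite.mem_toFinset, Set.mem_ofPred_eq] at hp hp'
      obtain ⟨h2, h3⟩ := hf i w hp.1 hp.2
      obtain ⟨h4, h5⟩ := hf i' w' hp'.1 hp'.2
      rw [heq] at h2 h3
      have h6 : r w = r w' := h2.symm.trans h4
      obtain ⟨h7, h8⟩ := ff_inj (h3.symm.trans h5)
      rw [h7]
      have h9 : w = w' := by rw [hν1 w, hν1 w', h8, h6]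
      rw [h9]
  have h2 := Finset.card_filter_add_card_filter_not (s := P) T
  have h3 : P.card = 2 * Mf.card := by
    rw [Finset.card_product]
    simp
  have h4 : (P.filter (fun p => ¬ T p)).card ≤
      ((Finset.univ : Finset Bool) ×ˢ ((Finset.univ : Finset (Bool × Bool)).sigma
        fun x => Mf.filter (fun w => sec (ψ (gen x)) w ≠ 1))).card := by
    apply Finset.card_le_card_of_injOn (fun p => (p.1, ⟨chooseL p.1 (ν p.2), p.2⟩))
    · rintro ⟨i, w⟩ hp
      simp only [P, T, Finset.coe_filter, Finset.mem_product, Finset.mem_univ, true_and,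
        Set.mem_ofPred_eq] at hp
      simp only [Finset.coe_product, Finset.coe_univ, Set.mem_prod, Set.mem_univ, true_and,
        Finset.mem_coe, Finset.mem_sigma, Finset.mem_univ, Finset.mem_filter]
      exact hp
    · rintro ⟨i, w⟩ _ ⟨i', w'⟩ _ heq
      simp only [Prod.mk.injEq, Sigma.mk.injEq] at heq
      obtain ⟨h5, h6, h7⟩ := heq
      rw [h5, eq_of_heq h7]
  rw [Finset.card_product, Finset.card_sigma] at h4
  have h5 : M.ncard = Mf.card := Set.ncard_eq_toFinset_card _ hMf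
  have h6 : ∀ x : Bool × Bool, {w | (∃ u, w = ψ u v₀) ∧ sec (ψ (gen x)) w ≠ 1}.ncard =
      (Mf.filter (fun w => sec (ψ (gen x)) w ≠ 1)).card := by
    intro x
    rw [← Set.ncard_coe_finset]
    congr 1
    ext w
    simp [Mf, hM]
  rw [h5, Finset.sum_congr rfl fun x _ => h6 x]
  have h7 : (Finset.univ : Finset Bool).card = 2 := rfl
  rw [h7] at h4
  omega

end Pool.Agent.Lib.H67P
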