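import Pool.Agent.Lib.H67P.A1

/-!
# H67P chunk N2 (M): elements of `PP j` have a small proportion of nontrivial sections on an unbounded orbit
-/

namespace Pool.Agent.Lib.H67P

open Pool.Agent.Lib.Helper67.BA TA

variable {X : Type}

/-- Let `M n = {w | ∃ u, w = ψ u (pref ζ n)}` (finite). (a) For `l ≤ n`, `v ∈ M l` the number of `w ∈ M n` with `w.take l = v` does not depend on `v`
(the group acts transitively), so it is `(M n).ncard / (M l).ncard`: `(M l).ncard * #{w ∈ M n | w.take l = v} = (M n).ncard`.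
(b) `(M n).ncard` is monotone in `n`. (c) Claim, by induction on `j`: for `g ∈ PP X j`, all `l`, `v ∈ M l` and `K` there is `n₀` such that for `n ≥ n₀`:
`K * #{w ∈ M n | w.take l = v ∧ sec g (w.drop l) ≠ 1} ≤ (M n).ncard`. `j = 0`: for large `n` the set is empty (`Dep_sec`). `j + 1`: let `C` be the
bound for `g`; take `l' ≥ l` with `(M l').ncard ≥ 2 * K * C` (`hinf`). Split according to `v' = w.take l'`: those `v'` with `sec g (v'.drop l) ∉ PP X j` are at most
`C`, and contribute together at most `C * (M n).ncard / (M l').ncard`, so `2 * K` times this is at most `(M n).ncard`. For the others (at most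
`(M l').ncard` many) `sec g (v'.drop l) ∈ PP X j` and the induction hypothesis with `K' = 2 * K * (M l').ncard` applies to `l'`, `v'`, `sec g (v'.drop l)`
(`sec_append`). The theorem is the case `l = 0`. -/
theorem sparse [Finite X] {F : Type} [Group F] (ψ : F →* TA X) (ζ : ℕ → X)
    (hinf : ∀ C, ∃ n, C ≤ {w | ∃ u, w = ψ u (pref ζ n)}.ncard) {j : ℕ} {g : TA X}
    (hg : g ∈ PP X j) (K : ℕ) : ∃ n₀, ∀ n, n₀ ≤ n →
      K * {w | (∃ u, w = ψ u (pref ζ n)) ∧ sec g w ≠ 1}.ncard ≤
        {w | ∃ u, w = ψ u (pref ζ n)}.ncard := by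
  sorry

end Pool.Agent.Lib.H67P
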