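import Pool.Agent.Lib.H67P.Defs

/-!
# H67P chunk N3 (M): bounded orbits have large stabilizers
-/

namespace Pool.Agent.Lib.H67P

open Pool.Agent.Lib.Helper67.BA TA

variable {X : Type}

/-- The orbit of `ζ` under `u ↦ ray (ψ u) ·` has at most `C` elements: `C + 1` different rays in it would have different prefixes of some length `n`
(`pref_ray`, `ray_ext`, compare `pref_le` in BA/NoFree). So the rays `ray (ψ (a ^ i)) ζ`, `0 ≤ i ≤ C`, are not all different, and `a ^ M` fixes `ζ` for
`M = C !`, for every `a : FreeGroup Bool`. Let `L` be the subgroup of the `u` with `ray (ψ u) ζ = ζ`; it contains `(of true) ^ M` and `(of false) ^ M`, which do not commute (see the end of the proof of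
`no_free` in BA/NoFree.lean, `hLnc`). `exists_free_of_noncomm` for `f = L.subtype` gives `ψ' : FreeGroup Bool →* L`; `ι = L.subtype.comp ψ'`. -/
theorem stab_free (ψ : FreeGroup Bool →* TA X) (ζ : ℕ → X) (C : ℕ)
    (h : ∀ n, {w | ∃ u, w = ψ u (pref ζ n)}.Finite ∧
      {w | ∃ u, w = ψ u (pref ζ n)}.ncard ≤ C) :
    ∃ ι : FreeGroup Bool →* FreeGroup Bool, Function.Injective ι ∧
      ∀ u, ray (ψ (ι u)) ζ = ζ := by
  sorry

end Pool.Agent.Lib.H67P
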