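import Pool.Agent.Lib.H67P.D1
import Pool.Agent.Lib.Helper67.BA.NoFree

/-!
# H67P chunk N4 (M): no free groups in wreath products and in the groups `BBs H ρ`
-/

namespace Pool.Agent.Lib.H67P

open Pool.Agent.Lib.Helper67.BA TA

variable {X : Type}

/-- Suppose all `(ψ u).f y ∈ H`. `L` = kernel of `u ↦ (ψ u).p`, of finite index; it contains powers `(of true) ^ c`, `(of false) ^ c`, `c ≥ 1`, which do not commute
(as in `no_free`, BA/NoFree.lean). On `L` the maps `u ↦ (ψ u).f y` are homomorphisms, jointly injective; by `iInf_ne_bot` one of them is injective on `L`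
(if all kernels are nontrivial, then so is the intersection). `exists_free_of_noncomm` for `L.subtype` gives an injective `FreeGroup Bool →* L`, and the composition
contradicts `h`. -/
theorem NF2_wr {H : Subgroup (TA X)} (h : NF2 H) {Y : Type} [Finite Y]
    (ψ : FreeGroup Bool →* Wr (TA X) Y) (hinj : Function.Injective ψ) :
    ¬ ∀ u y, (ψ u).f y ∈ H := by
  sorry

/-- Let `ψ` be injective with values in `BBs H ρ`, `ψ' : FreeGroup Bool →* BBs H ρ`. The homomorphisms `(offHom H ρ n).comp ψ'` take finitely many values
(`offHom_finite` at the two generators), and they are jointly injective (`offHom_inj`). By `iInf_ne_bot` (for `L = ⊤`, or transported along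
`Subgroup.topEquiv`) one of them is injective; its values are in `H` (`offHom_mem`): contradiction to `NF2_wr`. -/
theorem NF2_BBs [Finite X] [Nonempty X] {H : Subgroup (TA X)} (h : NF2 H) (ρ : ℕ → X) :
    NF2 (BBs H ρ) := by
  sorry

/-- a finitely generated group of finitary automorphisms is finite: both generators are in one `Dep X n` -/
theorem NF2_zero [Finite X] [Nonempty X] : NF2 (Fin0 X) := by
  sorry

end Pool.Agent.Lib.H67P
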