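import Pool.Agent.Lib.Helper67.BA.NoFree

/-!
# H67P chunk N5 (M): a ray with faithful germs
-/

namespace Pool.Agent.Lib.H67P

open Pool.Agent.Lib.Helper67.BA TA

variable {X : Type}

/-- A level all of whose words have an element with trivial section contradicts injectivity. -/
theorem N5_level [Finite X] [Nonempty X] (ψ : FreeGroup Bool →* TA X)
    (hψ : Function.Injective ψ) (n : ℕ)
    (hn : ∀ v : List X, v.length = n → ∃ u, u ≠ 1 ∧ ψ u v = v ∧ sec (ψ u) v = 1) : False := by
  classical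
  let κ : FreeGroup Bool →* Equiv.Perm (List.Vector X n) := (rootY n).comp ψ
  let L : Subgroup (FreeGroup Bool) := κ.ker
  have hL1 : ∀ u ∈ L, ∀ v : List X, v.length = n → ψ u v = v := by
    intro u hu v hv
    have h1 : κ u = 1 := hu
    exact congrArg (fun p : Equiv.Perm (List.Vector X n) => (p ⟨v, hv⟩).1) h1
  have hpow : ∀ u : FreeGroup Bool, u ^ Nat.card (Equiv.Perm (List.Vector X n)) ∈ L := by
    intro u
    show κ (u ^ _) = 1
    rw [map_pow, pow_card_eq_one']
  have hcard : Nat.card (Equiv.Perm (List.Vector X n)) ≠ 0 := Nat.card_pos.ne'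
  set c := Nat.card (Equiv.Perm (List.Vector X n)) with hc
  have hLnc : ∃ x ∈ L, ∃ y ∈ L, x * y ≠ y * x := by
    refine ⟨_, hpow (FreeGroup.of true), _, hpow (FreeGroup.of false), fun h => ?_⟩
    have h1 : Commute (FreeGroup.of true) ((FreeGroup.of false) ^ c) := by
      apply commute_of_zpow (k := (c : ℤ)) (by exact_mod_cast hcard)
      rw [zpow_natCast]
      exact h
    have h2 : Commute (FreeGroup.of false) (FreeGroup.of true) := by
      apply commute_of_zpow (k := (c : ℤ)) (by exact_mod_cast hcard)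
      rw [zpow_natCast]
      exact h1.symm
    have h3 := h2.eq
    have h4 := congrArg FreeGroup.toWord h3
    revert h4
    decide
  let σ : List.Vector X n → (L →* TA X) := fun v =>
    { toFun := fun u => sec (ψ u.1) v.1
      map_one' := by simp
      map_mul' := by
        intro a b
        show sec (ψ (a.1 * b.1)) v.1 = _
        rw [map_mul, sec_mul, hL1 b.1 b.2 v.1 v.2] }
  have : Finite (List.Vector X n) := inferInstance
  have : Fintype (List.Vector X n) := Fintype.ofFinite _
  obtain ⟨x, hx1, hx2⟩ := iInf_ne_bot hLnc (Finset.univ : Finset (List.Vector X n))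
    (fun v => (σ v).ker) (fun v => inferInstance) (by
      intro v _
      obtain ⟨u, hu, h1, h2⟩ := hn v.1 v.2
      rw [Subgroup.ne_bot_iff_exists_ne_one]
      refine ⟨⟨⟨u ^ c, hpow u⟩, ?_⟩, ?_⟩
      · show sec (ψ (u ^ c)) v.1 = 1
        rw [map_pow, (sec_pow_of_fixed h1 c).2, h2, one_pow]
      · intro h
        apply hu
        have h3 : u ^ c = 1 := congrArg (fun z => ((z.1 : L) : FreeGroup Bool)) h
        have h4 : u ^ c = 1 ^ c := by rw [h3, one_pow]
        exact pow_left_injective hcard h4)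
  have h1 : ψ x.1 = 1 := by
    apply eq_one_of _ n
    intro v hv
    exact ⟨hL1 x.1 x.2 v hv, hx2 ⟨v, hv⟩ (Finset.mem_univ _)⟩
  apply hx1
  apply Subtype.ext
  apply hψ
  rw [h1]
  simp

/-- König's lemma for the words which do not have an element with trivial section. -/
theorem N5_konig [Finite X] (ψ : FreeGroup Bool →* TA X) (v₀ : List X)
    (h : ∀ n, ∃ w : List X, w.length = n ∧
      ∀ u, u ≠ 1 → ψ u (v₀ ++ w) = v₀ ++ w → sec (ψ u) (v₀ ++ w) ≠ 1) :
    ∃ ζ : ℕ → X, ∀ n u, u ≠ 1 → ψ u (v₀ ++ pref ζ n) = v₀ ++ pref ζ n →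
      sec (ψ u) (v₀ ++ pref ζ n) ≠ 1 := by
  classical
  let P : List X → Prop := fun v => ∃ u, u ≠ 1 ∧ ψ u (v₀ ++ v) = v₀ ++ v ∧
    sec (ψ u) (v₀ ++ v) = 1
  have hPext : ∀ v w, P v → P (v ++ w) := by
    rintro v w ⟨u, hu, h1, h2⟩
    refine ⟨u, hu, ?_, ?_⟩
    · rw [← List.append_assoc, TA.append, h1, h2, one_apply]
    · rw [← List.append_assoc, sec_append, h2, sec_one]
  let Q : List X → Prop := fun v => ∀ k, ∃ w : List X, w.length = k ∧ ¬ P (v ++ w)
  have hcon : Q [] := by
    intro k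
    obtain ⟨w, hw, hw2⟩ := h k
    refine ⟨w, hw, ?_⟩
    rintro ⟨u, hu, h1, h2⟩
    rw [List.nil_append] at h1 h2
    exact hw2 u hu h1 h2
  obtain ⟨ζ, hζ⟩ := exists_ray Q hcon (by
    intro v hv
    by_contra hno
    push Not at hno
    simp only [Q] at hno
    push Not at hno
    choose k hk using hno
    obtain ⟨K, hK⟩ := (Set.finite_range k).bddAbove
    obtain ⟨w, hw, hw2⟩ := hv (K + 1)
    rcases w with _ | ⟨x, w⟩
    · simp at hw
    · apply hw2
      have h1 : k x ≤ K := hK ⟨x, rfl⟩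
      have h2 := hk x (w.take (k x)) (by
        rw [List.length_take]
        simp at hw
        omega)
      have h3 := hPext _ (w.drop (k x)) h2
      rw [List.append_assoc, List.take_append_drop, List.append_assoc] at h3
      exact h3)
  refine ⟨ζ, fun n u hu h1 h2 => ?_⟩
  obtain ⟨w, hw, hw2⟩ := hζ n 0
  rw [List.length_eq_zero_iff] at hw
  rw [hw, List.append_nil] at hw2
  exact hw2 ⟨u, hu, h1, h2⟩

/-- This is in the proof of `no_free` (BA/NoFree.lean). -/
theorem exists_bad [Finite X] [Nonempty X] (ψ : FreeGroup Bool →* TA X)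
    (hψ : Function.Injective ψ) : ∃ ζ : ℕ → X, ∀ n u, u ≠ 1 → ψ u (pref ζ n) = pref ζ n →
      sec (ψ u) (pref ζ n) ≠ 1 := by
  obtain ⟨ζ, hζ⟩ := N5_konig ψ [] (by
    intro n
    by_contra hcon
    push Not at hcon
    exact N5_level ψ hψ n hcon)
  exact ⟨ζ, hζ⟩

end Pool.Agent.Lib.H67P
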