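import Pool.Agent.Lib.H67P.N1
import Pool.Agent.Lib.H67P.N2
import Pool.Agent.Lib.H67P.N3
import Pool.Agent.Lib.H67P.N5
import Pool.Agent.Lib.H67P.A3

/-!
# H67P chunk N6 (M): no free subgroups of rank two in `PP j` (Sidki)
-/

namespace Pool.Agent.Lib.H67P

open Pool.Agent.Lib.Helper67.BA TA

variable {X : Type}

/-- Let `ψ` fix the ray `ζ`, with `sec (ψ u) (pref ζ n) ≠ 1` for all `n` and `u ≠ 1`. By `off_mem` for `ψ (of true)`, `ψ (of false)` there is `n₁` such that the sections off `ζ` of both
beyond `n₁` are in `H`. `ψ' u = sec (ψ u) (pref ζ n₁)` is a homomorphism (`sec_mul`, `ψ u` fixes `pref ζ n₁`), injective, the values at the generators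
are in `BBs H (shift n₁ ζ)` (`shift_ray`; the set of sections off the ray is finite because `ψ (of c) ∈ stepS H` has `QQ`; `sec_append`, `pref_add`), hence all values. This contradicts
`NF2_BBs`. -/
theorem fixed_case [Finite X] [Nonempty X] {H : Subgroup (TA X)} (hH : Sat H) (h : NF2 H)
    (ψ : FreeGroup Bool →* TA X) (hψ : ∀ u, ψ u ∈ stepS H) (ζ : ℕ → X)
    (hfix : ∀ u, ray (ψ u) ζ = ζ) (hbad : ∀ n u, u ≠ 1 → sec (ψ u) (pref ζ n) ≠ 1) : False := by
  sorry

/-- Let `ψ` be injective with values in `PP X (j + 1)`, `ζ` from `exists_bad`. If the numbers `{w | ∃ u, w = ψ u (pref ζ n)}.ncard` are bounded: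
`stab_free`, and `fixed_case` for `ψ.comp ι`. If they are unbounded (they are monotone, but `sparse` only needs unboundedness): `sparse` with `K = 16` (for the four
`ψ (gen x)`) gives `n ≥ 0` with `16 * #{..} ≤ #M n` for all four `x : Bool × Bool`; `forest` gives `#M n ≤ 2 * ∑ ≤ 8 * max`, so
`2 * #M n ≤ #M n`, contradiction since `M n` is nonempty. -/
theorem NF2_step [Finite X] [Nonempty X] (j : ℕ) (h : NF2 (PP X j)) : NF2 (PP X (j + 1)) := by
  sorry

theorem NF2_PP [Finite X] [Nonempty X] (j : ℕ) : NF2 (PP X j) := by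
  induction j with
  | zero => exact NF2_zero
  | succ j ih => exact NF2_step j ih

end Pool.Agent.Lib.H67P
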